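import Mathlib

set_option autoImplicit false

/-!
# The interval dynamic programme: correctness
-/

namespace Pool.Agent.Lib.MP2ca8f5

/-- `Path a b l`: the list `l` of gaps leads from the kept index `a` to the kept index `b`. -/
inductive Path : ℕ → ℕ → List (ℕ × ℕ) → Prop
  | nil (a : ℕ) : Path a a []
  | cons {a k b : ℕ} {l : List (ℕ × ℕ)} : a < k → Path k b l → Path a b ((a, k) :: l)

theorem Path.le {a b : ℕ} {l : List (ℕ × ℕ)} (h : Path a b l) : a ≤ b := by
  induction h with
  | nil a => exact le_rfl
  | cons h1 _ ih => omega

theorem Path.append {a i b k : ℕ} {l l' : List (ℕ × ℕ)} (h : Path a i l) (hik : i < k)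
    (h' : Path k b l') : Path a b (l ++ (i, k) :: l') := by
  induction h with
  | nil a => exact Path.cons hik h'
  | cons h1 _ ih => exact Path.cons h1 (ih hik)

theorem Path.split {a b : ℕ} {l : List (ℕ × ℕ)} (h : Path a b l) {g : ℕ × ℕ} (hg : g ∈ l) :
    ∃ l1 l2, l = l1 ++ g :: l2 ∧ Path a g.1 l1 ∧ Path g.2 b l2 ∧ g.1 < g.2 := by
  induction h with
  | nil a => simp at hg
  | @cons a k b l h1 h2 ih =>
    rcases List.mem_cons.1 hg with h | h
    · subst h
      exact ⟨[], l, rfl, Path.nil _, h2, h1⟩
    · obtain ⟨l1, l2, rfl, h3, h4, h5⟩ := ih h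
      exact ⟨(a, k) :: l1, l2, rfl, Path.cons h1 h3, h4, h5⟩

theorem Path.mem_le {a b : ℕ} {l : List (ℕ × ℕ)} (h : Path a b l) {g : ℕ × ℕ} (hg : g ∈ l) :
    a ≤ g.1 ∧ g.1 < g.2 ∧ g.2 ≤ b := by
  obtain ⟨l1, l2, _, h1, h2, h3⟩ := h.split hg
  exact ⟨h1.le, h3, h2.le⟩

theorem Path.eq_nil {a : ℕ} {l : List (ℕ × ℕ)} (h : Path a a l) : l = [] := by
  cases h with
  | nil => rfl
  | cons h1 h2 => have := h2.le; omega

section

variable {J : Type} (jobs : List J) (U W : J → ℕ → Bool) (Len : J → ℕ → ℕ → Bool)

/-- The jobs that have to be placed between `a` and `b`. -/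
def inJobs (j : J) (a b : ℕ) : Bool := !(U j a) && !(W j b)

/-- The gap `(i, k)` is long enough for all jobs between `a` and `b` that could use it. -/
def good (a b i k : ℕ) : Bool :=
  jobs.all (fun j => !(inJobs U W j a b && (U j k && W j i)) || Len j i k)

/-- No job has to be placed at the point `a`. -/
def noJob (a : ℕ) : Bool := jobs.all (fun j => !(inJobs U W j a a))

/-- A job is served by a gap. -/
def serves (j : J) (g : ℕ × ℕ) : Bool := U j g.2 && (W j g.1 && Len j g.1 g.2)

/-- Feasible chains of gaps. -/
def Feas (a b : ℕ) (l : List (ℕ × ℕ)) : Prop :=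
  Path a b l ∧ ∀ j ∈ jobs, inJobs U W j a b = true → ∃ g ∈ l, serves U W Len j g = true

/-- The better of two partial solutions. -/
def better {α : Type} (x y : Option (List α)) : Option (List α) :=
  match x with
  | none => y
  | some l => match y with
    | none => some l
    | some l' => bif decide (l.length < l'.length) then some l' else some l

/-- The candidate solution with the gap `g`. -/
def cand (tab : ℕ → ℕ → Option (List (ℕ × ℕ))) (a b : ℕ) (g : ℕ × ℕ) :
    Option (List (ℕ × ℕ)) :=
  bif decide (a ≤ g.1) && (decide (g.1 < g.2) && (decide (g.2 ≤ b) && good jobs U W Len a b g.1 g.2))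
  then
    match tab a g.1 with
    | none => none
    | some x => match tab g.2 b with
      | none => none
      | some y => some (x ++ g :: y)
  else none

/-- All pairs of indices below `M`. -/
def pairs (M : ℕ) : List (ℕ × ℕ) :=
  (List.range M).flatMap (fun i => (List.range M).map (fun k => (i, k)))

/-- One entry of the improved table. -/
def stepEntry (M : ℕ) (tab : ℕ → ℕ → Option (List (ℕ × ℕ))) (a b : ℕ) :
    Option (List (ℕ × ℕ)) :=
  bif decide (a = b) then (bif noJob jobs U W a then some [] else none)
  else (pairs M).foldl (fun acc g => better acc (cand jobs U W Len tab a b g)) none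

/-- The table after `r` rounds. -/
def table (M : ℕ) : ℕ → ℕ → ℕ → Option (List (ℕ × ℕ))
  | 0 => fun _ _ => none
  | r + 1 => fun a b => stepEntry jobs U W Len M (table M r) a b

/-- Specification of a table entry. -/
def IsOpt (a b : ℕ) (o : Option (List (ℕ × ℕ))) : Prop :=
  match o with
  | none => ∀ l, ¬ Feas jobs U W Len a b l
  | some l => Feas jobs U W Len a b l ∧ ∀ l', Feas jobs U W Len a b l' → l'.length ≤ l.length

variable {jobs U W Len}

theorem mem_pairs {M i k : ℕ} : (i, k) ∈ pairs M ↔ i < M ∧ k < M := by
  simp [pairs]

theorem better_foldl {α β : Type} (c : β → Option (List α)) (l : List β) (x : Option (List α)) :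
    (∀ y, l.foldl (fun acc g => better acc (c g)) x = some y →
      (x = some y ∨ ∃ g ∈ l, c g = some y)) ∧
    (∀ z, (x = some z ∨ ∃ g ∈ l, c g = some z) →
      ∃ y, l.foldl (fun acc g => better acc (c g)) x = some y ∧ z.length ≤ y.length) := by
  induction l generalizing x with
  | nil =>
    refine ⟨fun y h => Or.inl h, fun z h => ?_⟩
    rcases h with h | ⟨g, hg, _⟩
    · exact ⟨z, h, le_rfl⟩
    · simp at hg
  | cons g l ih =>
    obtain ⟨h1, h2⟩ := ih (better x (c g))
    rw [List.foldl_cons]
    constructor
    · intro y hy
      rcases h1 y hy with h | ⟨g', hg', h⟩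
      · cases x with
        | none => exact Or.inr ⟨g, List.mem_cons_self, h⟩
        | some x =>
          cases hc : c g with
          | none =>
            rw [hc] at h
            exact Or.inl h
          | some z =>
            rw [hc] at h
            simp only [better] at h
            cases hlt : decide (x.length < z.length) with
            | true =>
              rw [hlt] at h
              simp only [cond_true] at h
              exact Or.inr ⟨g, List.mem_cons_self, hc.trans h⟩
            | false =>
              rw [hlt] at h
              simp only [cond_false] at h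
              exact Or.inl h
      · exact Or.inr ⟨g', List.mem_cons_of_mem _ hg', h⟩
    · intro z hz
      have key : (∃ z', better x (c g) = some z' ∧ z.length ≤ z'.length) ∨
          ∃ g' ∈ l, c g' = some z := by
        rcases hz with h | ⟨g', hg', h⟩
        · left
          subst h
          cases hc : c g with
          | none => exact ⟨z, rfl, le_rfl⟩
          | some w =>
            simp only [better]
            by_cases hlt : z.length < w.length
            · exact ⟨w, by simp [hlt], hlt.le⟩
            · exact ⟨z, by simp [hlt], le_rfl⟩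
        · rcases List.mem_cons.1 hg' with h' | h'
          · subst h'
            left
            rw [h]
            cases x with
            | none => exact ⟨z, rfl, le_rfl⟩
            | some w =>
              simp only [better]
              by_cases hlt : w.length < z.length
              · exact ⟨z, by simp [hlt], le_rfl⟩
              · exact ⟨w, by simp [hlt], by omega⟩
          · exact Or.inr ⟨g', h', h⟩
      rcases key with ⟨z', hz', hle⟩ | h
      · obtain ⟨y, hy, hy'⟩ := h2 z' (Or.inl hz')
        exact ⟨y, hy, hle.trans hy'⟩
      · exact h2 z (Or.inr h)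

theorem cand_eq_some {tab : ℕ → ℕ → Option (List (ℕ × ℕ))} {a b : ℕ} {g : ℕ × ℕ}
    {l : List (ℕ × ℕ)} : cand jobs U W Len tab a b g = some l ↔
      a ≤ g.1 ∧ g.1 < g.2 ∧ g.2 ≤ b ∧ good jobs U W Len a b g.1 g.2 = true ∧
      ∃ x y, tab a g.1 = some x ∧ tab g.2 b = some y ∧ l = x ++ g :: y := by
  unfold cand
  by_cases hc : a ≤ g.1 ∧ g.1 < g.2 ∧ g.2 ≤ b ∧ good jobs U W Len a b g.1 g.2 = true
  · obtain ⟨h1, h2, h3, h4⟩ := hc
    simp only [h1, h2, h3, h4, decide_true, Bool.and_self, cond_true, true_and]
    cases htab : tab a g.1 with
    | none => simp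
    | some x =>
      cases htab' : tab g.2 b with
      | none => simp
      | some y => simp [eq_comm]
  · have : (decide (a ≤ g.1) && (decide (g.1 < g.2) && (decide (g.2 ≤ b) &&
        good jobs U W Len a b g.1 g.2))) = false := by
      rw [← Bool.not_eq_true]
      intro h
      apply hc
      simpa using h
    rw [this, cond_false]
    constructor
    · intro h; cases h
    · rintro ⟨h1, h2, h3, h4, _⟩
      exact absurd ⟨h1, h2, h3, h4⟩ hc

/-- Joining feasible chains at a good gap. -/
theorem Feas.join {a b i k : ℕ} {x y : List (ℕ × ℕ)} (hx : Feas jobs U W Len a i x)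
    (hy : Feas jobs U W Len k b y) (hik : i < k) (hg : good jobs U W Len a b i k = true) :
    Feas jobs U W Len a b (x ++ (i, k) :: y) := by
  refine ⟨hx.1.append hik hy.1, fun j hj hjob => ?_⟩
  have hg' := List.all_eq_true.1 hg j hj
  simp only [inJobs, Bool.and_eq_true, Bool.not_eq_true'] at hjob
  cases hU : U j k with
  | false =>
    obtain ⟨g, hgm, hs⟩ := hy.2 j hj (by simp [inJobs, hU, hjob.2])
    exact ⟨g, List.mem_append_right _ (List.mem_cons_of_mem _ hgm), hs⟩
  | true =>
    cases hW : W j i with
    | false =>
      obtain ⟨g, hgm, hs⟩ := hx.2 j hj (by simp [inJobs, hW, hjob.1])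
      exact ⟨g, List.mem_append_left _ hgm, hs⟩
    | true =>
      simp only [inJobs, hjob.1, hjob.2, hU, hW, Bool.not_false, Bool.and_self, Bool.not_true,
        Bool.false_or] at hg'
      exact ⟨(i, k), List.mem_append_right _ List.mem_cons_self, by simp [serves, hU, hW, hg']⟩

/-- Splitting a feasible chain at a good gap. -/
theorem Feas.exists_split (hU : ∀ j ∈ jobs, ∀ k k', k ≤ k' → U j k = true → U j k' = true)
    (hW : ∀ j ∈ jobs, ∀ i i', i' ≤ i → W j i = true → W j i' = true)
    (P : J → ℝ) (hP : ∀ j ∈ jobs, ∀ j' ∈ jobs, P j ≤ P j' → ∀ i k, i < k →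
      Len j' i k = true → Len j i k = true)
    {a b : ℕ} {l : List (ℕ × ℕ)} (h : Feas jobs U W Len a b l) (hab : a < b) :
    ∃ i k x y, i < k ∧ l = x ++ (i, k) :: y ∧ Feas jobs U W Len a i x ∧
      Feas jobs U W Len k b y ∧ good jobs U W Len a b i k = true := by
  -- it suffices to find a good gap
  suffices hsuff : ∃ g ∈ l, good jobs U W Len a b g.1 g.2 = true by
    obtain ⟨g, hg, hgood⟩ := hsuff
    obtain ⟨x, y, hl, hx, hy, hlt⟩ := h.1.split hg
    refine ⟨g.1, g.2, x, y, hlt, hl, ⟨hx, ?_⟩, ⟨hy, ?_⟩, hgood⟩
    · intro j hj hjob
      simp only [inJobs, Bool.and_eq_true, Bool.not_eq_true'] at hjob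
      have hWb : W j b = false := by
        rw [← Bool.not_eq_true]
        intro hc
        have := hW j hj b g.1 (by have := hy.le; omega) hc
        rw [hjob.2] at this
        cases this
      obtain ⟨g', hg', hs⟩ := h.2 j hj (by simp [inJobs, hjob.1, hWb])
      rw [hl, List.mem_append] at hg'
      rcases hg' with hg' | hg'
      · exact ⟨g', hg', hs⟩
      · exfalso
        have hle : g.1 ≤ g'.1 := by
          rcases List.mem_cons.1 hg' with h' | h'
          · rw [h']
          · have := (hy.mem_le h').1
            omega
        simp only [serves, Bool.and_eq_true] at hs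
        have := hW j hj g'.1 g.1 hle hs.2.1
        rw [hjob.2] at this
        cases this
    · intro j hj hjob
      simp only [inJobs, Bool.and_eq_true, Bool.not_eq_true'] at hjob
      have hUa : U j a = false := by
        rw [← Bool.not_eq_true]
        intro hc
        have := hU j hj a g.2 (by have := hx.le; omega) hc
        rw [hjob.1] at this
        cases this
      obtain ⟨g', hg', hs⟩ := h.2 j hj (by simp [inJobs, hjob.2, hUa])
      rw [hl, List.mem_append] at hg'
      simp only [serves, Bool.and_eq_true] at hs
      rcases hg' with hg' | hg'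
      · exfalso
        have hle := (hx.mem_le hg').2.2
        have := hU j hj g'.2 g.2 (by omega) hs.1
        rw [hjob.1] at this
        cases this
      · rcases List.mem_cons.1 hg' with h' | h'
        · exfalso
          rw [h'] at hs
          rw [hjob.1] at hs
          cases hs.1
        · exact ⟨g', h', by simp [serves, hs.1, hs.2.1, hs.2.2]⟩
  by_cases hne : ∃ j ∈ jobs, inJobs U W j a b = true
  · obtain ⟨j0, ⟨hj0, hj0b⟩, hmax⟩ := Set.exists_max_image
      {j | j ∈ jobs ∧ inJobs U W j a b = true} P
      ((List.finite_toSet jobs).subset fun j hj => hj.1) hne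
    obtain ⟨g, hg, hs⟩ := h.2 j0 hj0 hj0b
    refine ⟨g, hg, ?_⟩
    simp only [serves, Bool.and_eq_true] at hs
    refine List.all_eq_true.2 fun j hj => ?_
    cases hjb : inJobs U W j a b with
    | false => simp
    | true =>
      have := hP j hj j0 hj0 (hmax j ⟨hj, hjb⟩) g.1 g.2 (h.1.mem_le hg).2.1 hs.2.2
      simp [this]
  · have hl : l ≠ [] := by
      rintro rfl
      cases h.1
      omega
    obtain ⟨g, hg⟩ := List.exists_mem_of_ne_nil l hl
    refine ⟨g, hg, List.all_eq_true.2 fun j hj => ?_⟩
    have : inJobs U W j a b = false := by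
      rw [← Bool.not_eq_true]
      intro hc
      exact hne ⟨j, hj, hc⟩
    simp [this]

theorem table_isOpt (M : ℕ)
    (hU : ∀ j ∈ jobs, ∀ k k', k ≤ k' → U j k = true → U j k' = true)
    (hW : ∀ j ∈ jobs, ∀ i i', i' ≤ i → W j i = true → W j i' = true)
    (P : J → ℝ) (hP : ∀ j ∈ jobs, ∀ j' ∈ jobs, P j ≤ P j' → ∀ i k, i < k →
      Len j' i k = true → Len j i k = true)
    (r a b : ℕ) (hab : a ≤ b) (hb : b < M) (hr : b - a < r) :
    IsOpt jobs U W Len a b (table jobs U W Len M r a b) := by
  induction r generalizing a b with
  | zero => omega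
  | succ r ih =>
    simp only [table, stepEntry]
    rcases Nat.eq_or_lt_of_le hab with heq | hlt
    · subst heq
      simp only [decide_true, cond_true]
      cases hn : noJob jobs U W a with
      | true =>
        simp only [cond_true, IsOpt]
        refine ⟨⟨Path.nil a, fun j hj hjob => ?_⟩, fun l' hl' => ?_⟩
        · have := List.all_eq_true.1 hn j hj
          rw [hjob] at this
          cases this
        · rw [hl'.1.eq_nil]
      | false =>
        simp only [cond_false, IsOpt]
        intro l hl
        have hl0 := hl.1.eq_nil
        subst hl0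
        have : noJob jobs U W a = true := by
          refine List.all_eq_true.2 fun j hj => ?_
          cases hjb : inJobs U W j a a with
          | false => rfl
          | true =>
            obtain ⟨g, hg, _⟩ := hl.2 j hj hjb
            simp at hg
        rw [this] at hn
        cases hn
    · have hne : decide (a = b) = false := by simp; omega
      rw [hne, cond_false]
      obtain ⟨h1, h2⟩ := better_foldl (fun g => cand jobs U W Len (table jobs U W Len M r) a b g)
        (pairs M) none
      -- every feasible chain is dominated by a candidate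
      have hdom : ∀ l', Feas jobs U W Len a b l' → ∃ g ∈ pairs M, ∃ z,
          cand jobs U W Len (table jobs U W Len M r) a b g = some z ∧ l'.length ≤ z.length := by
        intro l' hl'
        obtain ⟨i, k, x, y, hik, hl, hx, hy, hgood⟩ := hl'.exists_split hU hW P hP hlt
        have hai := hx.1.le
        have hkb := hy.1.le
        have ho1 := ih a i hai (by omega) (by omega)
        have ho2 := ih k b hkb hb (by omega)
        cases ht1 : table jobs U W Len M r a i with
        | none => rw [ht1] at ho1; exact absurd hx (ho1 x)
        | some x' =>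
          cases ht2 : table jobs U W Len M r k b with
          | none => rw [ht2] at ho2; exact absurd hy (ho2 y)
          | some y' =>
            rw [ht1] at ho1
            rw [ht2] at ho2
            refine ⟨(i, k), mem_pairs.2 ⟨by omega, by omega⟩, x' ++ (i, k) :: y',
              cand_eq_some.2 ⟨hai, hik, hkb, hgood, x', y', ht1, ht2, rfl⟩, ?_⟩
            have e1 := ho1.2 x hx
            have e2 := ho2.2 y hy
            rw [hl]
            simp only [List.length_append, List.length_cons]
            omega
      cases hres : (pairs M).foldl (fun acc g => better acc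
          (cand jobs U W Len (table jobs U W Len M r) a b g)) none with
      | none =>
        intro l' hl'
        obtain ⟨g, hg, z, hz, _⟩ := hdom l' hl'
        obtain ⟨y, hy, _⟩ := h2 z (Or.inr ⟨g, hg, hz⟩)
        rw [hres] at hy
        cases hy
      | some l =>
        refine ⟨?_, ?_⟩
        · rcases h1 l hres with h | ⟨g, hg, h⟩
          · cases h
          · obtain ⟨e1, e2, e3, e4, x, y, e5, e6, rfl⟩ := cand_eq_some.1 h
            obtain ⟨hg1, hg2⟩ := mem_pairs.1 (show (g.1, g.2) ∈ pairs M from hg)
            have ho1 := ih a g.1 e1 hg1 (by omega)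
            have ho2 := ih g.2 b e3 hb (by omega)
            rw [e5] at ho1
            rw [e6] at ho2
            exact ho1.1.join ho2.1 e2 e4
        · intro l' hl'
          obtain ⟨g, hg, z, hz, hlen⟩ := hdom l' hl'
          obtain ⟨y, hy, hle⟩ := h2 z (Or.inr ⟨g, hg, hz⟩)
          rw [hres] at hy
          cases hy
          omega

/-- Size invariant of the table. -/
theorem table_bound (M : ℕ) (r a b : ℕ) (l : List (ℕ × ℕ))
    (h : table jobs U W Len M r a b = some l) :
    l.length ≤ b - a ∧ ∀ g ∈ l, g.1 < M ∧ g.2 < M := by
  induction r generalizing a b l with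
  | zero => cases h
  | succ r ih =>
    simp only [table, stepEntry] at h
    by_cases hab : a = b
    · simp only [hab, decide_true, cond_true] at h
      cases hn : noJob jobs U W b with
      | true =>
        rw [hn] at h
        simp only [cond_true, Option.some.injEq] at h
        subst h
        simp
      | false => rw [hn] at h; cases h
    · simp only [hab, decide_false, cond_false] at h
      obtain ⟨h1, _⟩ := better_foldl (fun g => cand jobs U W Len (table jobs U W Len M r) a b g)
        (pairs M) none
      rcases h1 l h with h' | ⟨g, hg, h'⟩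
      · cases h'
      · obtain ⟨e1, e2, e3, _, x, y, e5, e6, rfl⟩ := cand_eq_some.1 h'
        obtain ⟨hg1, hg2⟩ := mem_pairs.1 (show (g.1, g.2) ∈ pairs M from hg)
        obtain ⟨f1, f2⟩ := ih _ _ _ e5
        obtain ⟨f3, f4⟩ := ih _ _ _ e6
        constructor
        · rw [List.length_append, List.length_cons]
          omega
        · intro g' hg'
          rcases List.mem_append.1 hg' with h3 | h3
          · exact f2 g' h3
          · rcases List.mem_cons.1 h3 with h4 | h4
            · rw [h4]; exact ⟨hg1, hg2⟩
            · exact f4 g' h4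

end

end Pool.Agent.Lib.MP2ca8f5
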