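import Pool.Agent.Lib.MP_2ca8f5_lc.Arith
import Pool.Agent.Lib.MP_2ca8f5_lc.DP

set_option autoImplicit false

/-!
# The algorithm and its running time
-/

namespace Pool.Agent.Lib.MP2ca8f5

variable {α β γ δ σ τ : Type} [Enc α] [Enc β] [Enc γ] [Enc δ] [Enc σ] [Enc τ]

/-! ### Fractions -/

/-- Sum of fractions. -/
def fadd (p q : Frac) : Frac := (addB (mulB p.1 q.2) (mulB q.1 p.2), mulB p.2 q.2)

/-- Difference of fractions. -/
def fsub (p q : Frac) : Frac := (subB (mulB p.1 q.2) (mulB q.1 p.2), mulB p.2 q.2)

/-- Product of fractions. -/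
def fmul (p q : Frac) : Frac := (mulB p.1 q.1, mulB p.2 q.2)

/-- Quotient of fractions. -/
def fdiv (p q : Frac) : Frac := (mulB p.1 q.2, mulB p.2 q.1)

/-- Comparison of fractions. -/
def flt (p q : Frac) : Bool := !(geB (mulB p.1 q.2) (mulB q.1 p.2))

/-- Half of a fraction. -/
def fhalf (p : Frac) : Frac := (p.1, false :: p.2)

/-- Maximum of fractions. -/
def fmax (p q : Frac) : Frac := bif flt p q then q else p

/-- Minimum of fractions. -/
def fmin (p q : Frac) : Frac := bif flt p q then p else q

theorem poly_fadd {f g : α → Frac} (hf : PolyTime f) (hg : PolyTime g) :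
    PolyTime (fun a => fadd (f a) (g a)) :=
  (PolyTime.addB (PolyTime.mulB (PolyTime.fst.comp hf) (PolyTime.snd.comp hg))
    (PolyTime.mulB (PolyTime.fst.comp hg) (PolyTime.snd.comp hf))).pair
    (PolyTime.mulB (PolyTime.snd.comp hf) (PolyTime.snd.comp hg))

theorem poly_fsub {f g : α → Frac} (hf : PolyTime f) (hg : PolyTime g) :
    PolyTime (fun a => fsub (f a) (g a)) :=
  (PolyTime.subB (PolyTime.mulB (PolyTime.fst.comp hf) (PolyTime.snd.comp hg))
    (PolyTime.mulB (PolyTime.fst.comp hg) (PolyTime.snd.comp hf))).pair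
    (PolyTime.mulB (PolyTime.snd.comp hf) (PolyTime.snd.comp hg))

theorem poly_fmul {f g : α → Frac} (hf : PolyTime f) (hg : PolyTime g) :
    PolyTime (fun a => fmul (f a) (g a)) :=
  (PolyTime.mulB (PolyTime.fst.comp hf) (PolyTime.fst.comp hg)).pair
    (PolyTime.mulB (PolyTime.snd.comp hf) (PolyTime.snd.comp hg))

theorem poly_fdiv {f g : α → Frac} (hf : PolyTime f) (hg : PolyTime g) :
    PolyTime (fun a => fdiv (f a) (g a)) :=
  (PolyTime.mulB (PolyTime.fst.comp hf) (PolyTime.snd.comp hg)).pair
    (PolyTime.mulB (PolyTime.snd.comp hf) (PolyTime.fst.comp hg))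

theorem poly_flt {f g : α → Frac} (hf : PolyTime f) (hg : PolyTime g) :
    PolyTime (fun a => flt (f a) (g a)) :=
  (PolyTime.geB (PolyTime.mulB (PolyTime.fst.comp hf) (PolyTime.snd.comp hg))
    (PolyTime.mulB (PolyTime.fst.comp hg) (PolyTime.snd.comp hf))).not

theorem poly_fhalf {f : α → Frac} (hf : PolyTime f) : PolyTime (fun a => fhalf (f a)) :=
  (PolyTime.fst.comp hf).pair (PolyTime.list_cons (.const false) (PolyTime.snd.comp hf))

theorem poly_fmax {f g : α → Frac} (hf : PolyTime f) (hg : PolyTime g) :
    PolyTime (fun a => fmax (f a) (g a)) := PolyTime.cond (poly_flt hf hg) hg hf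

theorem poly_fmin {f g : α → Frac} (hf : PolyTime f) (hg : PolyTime g) :
    PolyTime (fun a => fmin (f a) (g a)) := PolyTime.cond (poly_flt hf hg) hf hg

/-! ### Points and jobs -/

/-- A point: a finite time, or minus infinity (`(false, none)`) or infinity (`(true, none)`). -/
abbrev Pt : Type := Bool × Option Frac

/-- Time shift of the lower end of a job. -/
def shiftLo (I : Inst) (j : Job) : Frac := fdiv (fmul I.delta j.ls) I.len

/-- Time shift of the upper end of a job. -/
def shiftHi (I : Inst) (j : Job) : Frac := fdiv (fmul I.delta j.le) I.len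

/-- The job can be finished before the point. -/
def tU (I : Inst) (j : Job) (x : Pt) : Bool :=
  x.2.casesOn x.1 (fun t => flt (fadd j.r j.p) (fadd t (shiftLo I j)))

/-- The job can be started after the point. -/
def tW (I : Inst) (j : Job) (x : Pt) : Bool :=
  x.2.casesOn (!x.1) (fun t => flt (fadd t (fadd j.p (shiftHi I j))) j.d)

/-- The job fits between the points. -/
def tLen (I : Inst) (j : Job) (x y : Pt) : Bool :=
  x.2.casesOn true (fun t => y.2.casesOn true
    (fun t' => flt (fadd t (fadd j.p (shiftHi I j))) (fadd t' (shiftLo I j))))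

/-- The points of an instance. -/
def pts (I : Inst) : List Pt :=
  (false, none) :: (I.starts.map (fun t => ((false, some t) : Pt)) ++ [((true, none) : Pt)])

/-- Access to the points. -/
def pt (P : List Pt) (i : ℕ) : Pt := (P[i]?).getD (true, none)

theorem poly_shiftLo {f : α → Inst} {g : α → Job} (hf : PolyTime f) (hg : PolyTime g) :
    PolyTime (fun a => shiftLo (f a) (g a)) := by
  refine poly_fdiv (poly_fmul ?_ ?_) ?_
  · exact PolyTime.fst.comp (PolyTime.snd.comp hf)
  · exact PolyTime.fst.comp (PolyTime.snd.comp (PolyTime.snd.comp (PolyTime.snd.comp hg)))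
  · exact PolyTime.fst.comp hf

theorem poly_shiftHi {f : α → Inst} {g : α → Job} (hf : PolyTime f) (hg : PolyTime g) :
    PolyTime (fun a => shiftHi (f a) (g a)) := by
  refine poly_fdiv (poly_fmul ?_ ?_) ?_
  · exact PolyTime.fst.comp (PolyTime.snd.comp hf)
  · exact PolyTime.snd.comp (PolyTime.snd.comp (PolyTime.snd.comp (PolyTime.snd.comp hg)))
  · exact PolyTime.fst.comp hf

theorem PolyTime.job_r {g : α → Job} (hg : PolyTime g) : PolyTime (fun a => (g a).r) :=
  PolyTime.fst.comp hg

theorem PolyTime.job_d {g : α → Job} (hg : PolyTime g) : PolyTime (fun a => (g a).d) :=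
  PolyTime.fst.comp (PolyTime.snd.comp hg)

theorem PolyTime.job_p {g : α → Job} (hg : PolyTime g) : PolyTime (fun a => (g a).p) :=
  PolyTime.fst.comp (PolyTime.snd.comp (PolyTime.snd.comp hg))

theorem poly_tU {f : α → Inst} {g : α → Job} {x : α → Pt} (hf : PolyTime f)
    (hg : PolyTime g) (hx : PolyTime x) : PolyTime (fun a => tU (f a) (g a) (x a)) := by
  refine PolyTime.option_casesOn (o := fun a => (x a).2) (f := fun a => (x a).1)
    (g := fun y : α × Frac => flt (fadd (g y.1).r (g y.1).p)
      (fadd y.2 (shiftLo (f y.1) (g y.1))))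
    (PolyTime.snd.comp hx) (PolyTime.fst.comp hx) ?_
  have hg' := hg.comp (PolyTime.fst (α := α) (β := Frac))
  have hf' := hf.comp (PolyTime.fst (α := α) (β := Frac))
  exact poly_flt (poly_fadd hg'.job_r hg'.job_p)
    (poly_fadd .snd (poly_shiftLo hf' hg'))

theorem poly_tW {f : α → Inst} {g : α → Job} {x : α → Pt} (hf : PolyTime f)
    (hg : PolyTime g) (hx : PolyTime x) : PolyTime (fun a => tW (f a) (g a) (x a)) := by
  refine PolyTime.option_casesOn (o := fun a => (x a).2) (f := fun a => !(x a).1)
    (g := fun y : α × Frac => flt (fadd y.2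
      (fadd (g y.1).p (shiftHi (f y.1) (g y.1)))) (g y.1).d)
    (PolyTime.snd.comp hx) (PolyTime.fst.comp hx).not ?_
  have hg' := hg.comp (PolyTime.fst (α := α) (β := Frac))
  have hf' := hf.comp (PolyTime.fst (α := α) (β := Frac))
  exact poly_flt (poly_fadd .snd (poly_fadd hg'.job_p (poly_shiftHi hf' hg')))
    hg'.job_d

theorem poly_tLen {f : α → Inst} {g : α → Job} {x y : α → Pt} (hf : PolyTime f)
    (hg : PolyTime g) (hx : PolyTime x) (hy : PolyTime y) :
    PolyTime (fun a => tLen (f a) (g a) (x a) (y a)) := by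
  refine PolyTime.option_casesOn (o := fun a => (x a).2) (f := fun _ => true)
    (g := fun z : α × Frac => (y z.1).2.casesOn (motive := fun _ => Bool) true (fun t' =>
      flt (fadd z.2
      (fadd (g z.1).p (shiftHi (f z.1) (g z.1))))
      (fadd t' (shiftLo (f z.1) (g z.1)))))
    (PolyTime.snd.comp hx) (.const true) ?_
  refine PolyTime.option_casesOn (o := fun z : α × Frac => (y z.1).2) (f := fun _ => true)
    (g := fun w : (α × Frac) × Frac =>
      flt (fadd w.1.2
      (fadd (g w.1.1).p (shiftHi (f w.1.1) (g w.1.1))))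
      (fadd w.2 (shiftLo (f w.1.1) (g w.1.1))))
    (PolyTime.snd.comp (hy.comp .fst)) (.const true) ?_
  have hg' := hg.comp (PolyTime.fst.comp (PolyTime.fst (α := α × Frac) (β := Frac)))
  have hf' := hf.comp (PolyTime.fst.comp (PolyTime.fst (α := α × Frac) (β := Frac)))
  exact poly_flt (poly_fadd (PolyTime.snd.comp .fst)
    (poly_fadd hg'.job_p (poly_shiftHi hf' hg')))
    (poly_fadd .snd (poly_shiftLo hf' hg'))

theorem poly_pts {f : α → Inst} (hf : PolyTime f) : PolyTime (fun a => pts (f a)) := by
  have hs : PolyTime (fun a => (f a).starts) :=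
    PolyTime.fst.comp (PolyTime.snd.comp (PolyTime.snd.comp hf))
  refine PolyTime.list_cons (.const _) (PolyTime.append ?_ (.const _))
  refine PolyTime.map (g := fun y : α × Frac => ((false, some y.2) : Pt)) hs ?_
  exact (PolyTime.const false).pair (PolyTime.option_some .snd)

theorem poly_pt {f : α → List Pt} {n : α → ℕ} (hf : PolyTime f) (hn : PolyTime n) :
    PolyTime (fun a => pt (f a) (n a)) :=
  PolyTime.option_getD (PolyTime.getElem? hf hn) (.const _)

/-! ### The table -/

/-- Tables of partial solutions. -/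
abbrev Tab : Type := List (List (Option (List (ℕ × ℕ))))

/-- Access to a table. -/
def tget (T : Tab) (a b : ℕ) : Option (List (ℕ × ℕ)) := (((T[a]?).getD [])[b]?).getD none

theorem poly_tget {f : α → Tab} {m n : α → ℕ} (hf : PolyTime f) (hm : PolyTime m)
    (hn : PolyTime n) : PolyTime (fun a => tget (f a) (m a) (n a)) :=
  PolyTime.option_getD (PolyTime.getElem? (PolyTime.option_getD (PolyTime.getElem? hf hm)
    (.const _)) hn) (.const _)

/-- The context of the dynamic programme: the instance and its points. -/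
abbrev Ctx : Type := Inst × List Pt

/-- Job tests on indices. -/
def cU (c : Ctx) (j : Job) (k : ℕ) : Bool := tU c.1 j (pt c.2 k)

/-- Job tests on indices. -/
def cW (c : Ctx) (j : Job) (i : ℕ) : Bool := tW c.1 j (pt c.2 i)

/-- Job tests on indices. -/
def cLen (c : Ctx) (j : Job) (i k : ℕ) : Bool := tLen c.1 j (pt c.2 i) (pt c.2 k)

theorem poly_cU {f : α → Ctx} {g : α → Job} {n : α → ℕ} (hf : PolyTime f)
    (hg : PolyTime g) (hn : PolyTime n) : PolyTime (fun a => cU (f a) (g a) (n a)) :=
  poly_tU (PolyTime.fst.comp hf) hg (poly_pt (PolyTime.snd.comp hf) hn)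

theorem poly_cW {f : α → Ctx} {g : α → Job} {n : α → ℕ} (hf : PolyTime f)
    (hg : PolyTime g) (hn : PolyTime n) : PolyTime (fun a => cW (f a) (g a) (n a)) :=
  poly_tW (PolyTime.fst.comp hf) hg (poly_pt (PolyTime.snd.comp hf) hn)

theorem poly_cLen {f : α → Ctx} {g : α → Job} {m n : α → ℕ} (hf : PolyTime f)
    (hg : PolyTime g) (hm : PolyTime m) (hn : PolyTime n) :
    PolyTime (fun a => cLen (f a) (g a) (m a) (n a)) :=
  poly_tLen (PolyTime.fst.comp hf) hg (poly_pt (PolyTime.snd.comp hf) hm)
    (poly_pt (PolyTime.snd.comp hf) hn)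

theorem poly_inJobs {f : α → Ctx} {g : α → Job} {m n : α → ℕ} (hf : PolyTime f)
    (hg : PolyTime g) (hm : PolyTime m) (hn : PolyTime n) :
    PolyTime (fun a => inJobs (cU (f a)) (cW (f a)) (g a) (m a) (n a)) :=
  (poly_cU hf hg hm).not.and (poly_cW hf hg hn).not

theorem PolyTime.ctx_jobs {f : α → Ctx} (hf : PolyTime f) : PolyTime (fun a => (f a).1.jobs) :=
  PolyTime.snd.comp (PolyTime.snd.comp (PolyTime.snd.comp (PolyTime.fst.comp hf)))

theorem poly_good {f : α → Ctx} {a b i k : α → ℕ} (hf : PolyTime f)
    (ha : PolyTime a) (hb : PolyTime b) (hi : PolyTime i) (hk : PolyTime k) :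
    PolyTime (fun x => good (f x).1.jobs (cU (f x)) (cW (f x)) (cLen (f x))
      (a x) (b x) (i x) (k x)) := by
  refine PolyTime.all (p := fun y : α × Job =>
    !(inJobs (cU (f y.1))
      (cW (f y.1)) y.2 (a y.1) (b y.1) &&
      (cU (f y.1) y.2 (k y.1) &&
        cW (f y.1) y.2 (i y.1))) ||
      cLen (f y.1) y.2 (i y.1) (k y.1)) hf.ctx_jobs ?_
  have e : PolyTime (fun y : α × Job => y.1) := .fst
  have e2 : PolyTime (fun y : α × Job => y.2) := .snd
  exact (((poly_inJobs (hf.comp e) e2 (ha.comp e) (hb.comp e)).and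
    ((poly_cU (hf.comp e) e2 (hk.comp e)).and (poly_cW (hf.comp e) e2 (hi.comp e)))).not).or
    (poly_cLen (hf.comp e) e2 (hi.comp e) (hk.comp e))

theorem poly_noJob {f : α → Ctx} {a : α → ℕ} (hf : PolyTime f) (ha : PolyTime a) :
    PolyTime (fun x => noJob (f x).1.jobs (cU (f x)) (cW (f x)) (a x)) := by
  refine PolyTime.all (p := fun y : α × Job =>
    !(inJobs (cU (f y.1))
      (cW (f y.1)) y.2 (a y.1) (a y.1))) hf.ctx_jobs ?_
  have e : PolyTime (fun y : α × Job => y.1) := .fst
  have e2 : PolyTime (fun y : α × Job => y.2) := .snd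
  exact (poly_inJobs (hf.comp e) e2 (ha.comp e) (ha.comp e)).not

theorem poly_serves {f : α → Ctx} {j : α → Job} {g : α → ℕ × ℕ} (hf : PolyTime f)
    (hj : PolyTime j) (hg : PolyTime g) :
    PolyTime (fun x => serves (cU (f x)) (cW (f x)) (cLen (f x)) (j x) (g x)) :=
  (poly_cU hf hj (PolyTime.snd.comp hg)).and ((poly_cW hf hj (PolyTime.fst.comp hg)).and
    (poly_cLen hf hj (PolyTime.fst.comp hg) (PolyTime.snd.comp hg)))

theorem poly_cand {f : α → Ctx} {T : α → Tab} {a b : α → ℕ} {g : α → ℕ × ℕ}
    (hf : PolyTime f) (hT : PolyTime T) (ha : PolyTime a) (hb : PolyTime b) (hg : PolyTime g) :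
    PolyTime (fun x => cand (f x).1.jobs (cU (f x)) (cW (f x)) (cLen (f x)) (tget (T x))
      (a x) (b x) (g x)) := by
  have g1 := PolyTime.fst.comp hg
  have g2 := PolyTime.snd.comp hg
  refine PolyTime.cond ((PolyTime.le ha g1).and ((PolyTime.lt g1 g2).and ((PolyTime.le g2 hb).and
    (poly_good hf ha hb g1 g2)))) ?_ (.const _)
  have h1 : PolyTime (fun y : α × List (ℕ × ℕ) =>
      (tget (T y.1) (g y.1).2 (b y.1)).casesOn
        (motive := fun _ => Option (List (ℕ × ℕ))) none
        (fun z => some (y.2 ++ g y.1 :: z))) := by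
    refine PolyTime.option_casesOn
      (o := fun y : α × List (ℕ × ℕ) =>
        tget (T y.1) (g y.1).2 (b y.1))
      (f := fun _ => none)
      (g := fun w : (α × List (ℕ × ℕ)) × List (ℕ × ℕ) => some (w.1.2 ++ g w.1.1 :: w.2))
      ?_ (.const _) ?_
    · have e : PolyTime (fun y : α × List (ℕ × ℕ) => y.1) := .fst
      exact poly_tget (hT.comp e) (g2.comp e) (hb.comp e)
    · have e : PolyTime (fun w : (α × List (ℕ × ℕ)) × List (ℕ × ℕ) => w.1.1) :=
        PolyTime.fst.comp .fst
      exact PolyTime.option_some (PolyTime.append (PolyTime.snd.comp .fst)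
        (PolyTime.list_cons (hg.comp e) .snd))
  refine (PolyTime.option_casesOn
      (o := fun x => tget (T x) (a x) (g x).1)
      (f := fun _ => none) (poly_tget hT ha g1) (.const _) h1).of_eq fun x => ?_
  cases h1 : tget (T x) (a x) (g x).1 with
  | none => rfl
  | some l =>
    cases h2 : tget (T x) (g x).2 (b x) with
    | none => simp only [h2]
    | some l' => simp only [h2]

theorem poly_better {f g : α → Option (List β)} (hf : PolyTime f) (hg : PolyTime g) :
    PolyTime (fun a => better (f a) (g a)) := by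
  have h1 : PolyTime (fun y : α × List β => (g y.1).casesOn
      (motive := fun _ => Option (List β)) (some y.2)
      (fun l' => bif decide (y.2.length < l'.length) then some l' else some y.2)) := by
    refine PolyTime.option_casesOn (o := fun y : α × List β => g y.1)
      (f := fun y => some y.2)
      (g := fun w : (α × List β) × List β =>
        bif decide (w.1.2.length < w.2.length) then some w.2 else some w.1.2)
      (hg.comp .fst) (PolyTime.option_some .snd) ?_
    have e : PolyTime (fun w : (α × List β) × List β => w.1.2) := PolyTime.snd.comp .fst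
    exact PolyTime.cond (PolyTime.lt e.length (PolyTime.length .snd)) (PolyTime.option_some .snd)
      (PolyTime.option_some e)
  refine (PolyTime.option_casesOn (o := f) (f := g) hf hg h1).of_eq fun x => ?_
  cases hfx : f x with
  | none => rfl
  | some l =>
    cases hgx : g x with
    | none => simp only [hgx, better]
    | some l' => simp only [hgx, better]

theorem esize_better (x y : Option (List β)) : esize (better x y) ≤ esize x + esize y := by
  cases x with
  | none =>
    change esize y ≤ _
    omega
  | some l =>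
    cases y with
    | none => change esize (some l) ≤ _; omega
    | some l' =>
      simp only [Pool.Agent.Lib.MP2ca8f5.better]
      cases decide (l.length < l'.length)
      · simp only [cond_false]; omega
      · simp only [cond_true]; omega

theorem PolyTime.flatMap {f : α → List β} {g : α × β → List γ} (hf : PolyTime f)
    (hg : PolyTime g) : PolyTime (fun a => (f a).flatMap (fun b => g (a, b))) := by
  obtain ⟨K, hK, hKb⟩ := PolyTime.bound_mem hf hg
  have h1 : PolyTime (fun a => (f a).foldl (fun s b => s ++ g (a, b)) []) := by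
    refine PolyTime.foldl_add (g := fun _ => [])
      (h := fun x : α × (β × List γ) => x.2.2 ++ g (x.1, x.2.1))
      (K := K) hf (.const _) ?_ hK ?_
    · exact PolyTime.append (PolyTime.snd.comp .snd)
        (hg.comp (PolyTime.fst.pair (PolyTime.fst.comp .snd)))
    · intro a b hb s
      have := hKb a b hb
      have h2 := esize_append s (g (a, b))
      simp only
      omega
  refine h1.of_eq fun a => ?_
  have : ∀ (l : List β) (s : List γ), l.foldl (fun s b => s ++ g (a, b)) s
      = s ++ l.flatMap (fun b => g (a, b)) := by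
    intro l
    induction l with
    | nil => intro s; simp
    | cons b l ih => intro s; rw [List.foldl_cons, ih]; simp
  rw [this]
  simp

theorem poly_pairs {n : α → ℕ} (hn : PolyTime n) : PolyTime (fun a => pairs (n a)) := by
  refine PolyTime.flatMap (g := fun y : α × ℕ => (List.range (n y.1)).map (fun k => (y.2, k)))
    hn.range ?_
  refine PolyTime.map (f := fun y : α × ℕ => List.range (n y.1))
    (g := fun w : (α × ℕ) × ℕ => (w.1.2, w.2)) (hn.comp .fst).range ?_
  exact (PolyTime.snd.comp .fst).pair .snd

/-- One entry of the improved table, computed. -/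
def entry (c : Ctx) (T : Tab) (a b : ℕ) : Option (List (ℕ × ℕ)) :=
  stepEntry c.1.jobs (cU c) (cW c) (cLen c) c.2.length (tget T) a b

theorem poly_entry {f : α → Ctx} {T : α → Tab} {a b : α → ℕ}
    (hf : PolyTime f) (hT : PolyTime T) (ha : PolyTime a) (hb : PolyTime b) :
    PolyTime (fun x => entry (f x) (T x) (a x) (b x)) := by
  refine PolyTime.cond (PolyTime.nat_eq ha hb)
    (PolyTime.cond (poly_noJob hf ha) (.const _) (.const _)) ?_
  have hpairs : PolyTime (fun x => pairs (f x).2.length) :=
    poly_pairs (PolyTime.snd.comp hf).length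
  have e : PolyTime (fun y : α × (ℕ × ℕ) => y.1) := .fst
  have hcand : PolyTime (fun y : α × (ℕ × ℕ) =>
      cand (f y.1).1.jobs (cU (f y.1))
        (cW (f y.1)) (cLen (f y.1))
        (tget (T y.1)) (a y.1) (b y.1) y.2) :=
    poly_cand (hf.comp e) (hT.comp e) (ha.comp e) (hb.comp e) .snd
  obtain ⟨K, hK, hKb⟩ := PolyTime.bound_mem hpairs hcand
  refine PolyTime.foldl_add (g := fun _ => none)
    (h := fun x : α × ((ℕ × ℕ) × Option (List (ℕ × ℕ))) =>
      better x.2.2
        (cand (f x.1).1.jobs (cU (f x.1))
        (cW (f x.1)) (cLen (f x.1))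
        (tget (T x.1)) (a x.1) (b x.1) x.2.1))
    (K := K) hpairs (.const _) ?_ hK ?_
  · exact poly_better (PolyTime.snd.comp .snd)
      (hcand.comp (PolyTime.fst.pair (PolyTime.fst.comp .snd)))
  · intro x g hg s
    have h1 := hKb x g hg
    have h2 := esize_better s (cand (f x).1.jobs
        (cU (f x))
        (cW (f x)) (cLen (f x))
        (tget (T x)) (a x) (b x) g)
    simp only
    simp only at h1
    omega

/-- One round of improvements. -/
def stepTab (c : Ctx) (T : Tab) : Tab :=
  (List.range c.2.length).map (fun a => (List.range c.2.length).map (fun b => entry c T a b))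

theorem poly_stepTab {f : α → Ctx} {T : α → Tab} (hf : PolyTime f) (hT : PolyTime T) :
    PolyTime (fun x => stepTab (f x) (T x)) := by
  have hr : PolyTime (fun x => List.range (f x).2.length) := (PolyTime.snd.comp hf).length.range
  refine PolyTime.map (g := fun y : α × ℕ => (List.range (f y.1).2.length).map
    (fun b => entry (f y.1) (T y.1) y.2 b)) hr ?_
  refine PolyTime.map (f := fun y : α × ℕ => List.range (f y.1).2.length)
    (g := fun w : (α × ℕ) × ℕ =>
      entry (f w.1.1) (T w.1.1) w.1.2 w.2) (hr.comp .fst) ?_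
  have e : PolyTime (fun w : (α × ℕ) × ℕ => w.1.1) := PolyTime.fst.comp .fst
  exact poly_entry (hf.comp e) (hT.comp e) (PolyTime.snd.comp .fst) .snd

theorem tget_stepTab (c : Ctx) (T : Tab) (a b : ℕ) (ha : a < c.2.length) (hb : b < c.2.length) :
    tget (stepTab c T) a b = entry c T a b := by
  simp [tget, stepTab, ha, hb]

theorem tget_stepTab_out (c : Ctx) (T : Tab) (a b : ℕ)
    (h : ¬ (a < c.2.length ∧ b < c.2.length)) :
    tget (stepTab c T) a b = none := by
  by_cases ha : a < c.2.length
  · have hb : ¬ b < c.2.length := fun hb => h ⟨ha, hb⟩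
    simp [tget, stepTab, ha, hb]
  · simp [tget, stepTab, ha]

theorem foldl_congr_mem {α β : Type} {f g : α → β → α} (l : List β) (x : α)
    (h : ∀ b ∈ l, ∀ a, f a b = g a b) : l.foldl f x = l.foldl g x := by
  induction l generalizing x with
  | nil => rfl
  | cons b l ih =>
    rw [List.foldl_cons, List.foldl_cons, h b List.mem_cons_self]
    exact ih _ (fun b' hb' => h b' (List.mem_cons_of_mem _ hb'))

theorem stepEntry_congr {J : Type} (jobs : List J) (U W : J → ℕ → Bool) (Len : J → ℕ → ℕ → Bool)
    (M : ℕ) (T T' : ℕ → ℕ → Option (List (ℕ × ℕ))) (a b : ℕ) (ha : a < M) (hb : b < M)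
    (h : ∀ i k, i < M → k < M → T i k = T' i k) :
    stepEntry jobs U W Len M T a b = stepEntry jobs U W Len M T' a b := by
  unfold stepEntry
  congr 1
  refine foldl_congr_mem _ _ ?_
  intro g hg acc
  obtain ⟨h1, h2⟩ := mem_pairs.1 (show (g.1, g.2) ∈ pairs M from hg)
  unfold cand
  rw [h a g.1 ha h1, h g.2 b h2 hb]

/-- The table after `n` rounds. -/
def iterTab (c : Ctx) (n : ℕ) : Tab := (stepTab c)^[n] []

theorem tget_iterTab (c : Ctx) (n : ℕ) (a b : ℕ) (ha : a < c.2.length) (hb : b < c.2.length) :
    tget (iterTab c n) a b = table c.1.jobs (cU c) (cW c) (cLen c) c.2.length n a b := by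
  induction n generalizing a b with
  | zero => simp [iterTab, tget, table]
  | succ n ih =>
    unfold iterTab at ih ⊢
    rw [Function.iterate_succ_apply', tget_stepTab _ _ _ _ ha hb]
    unfold entry table
    exact stepEntry_congr _ _ _ _ _ _ _ _ _ ha hb ih

theorem esize_list_le (l : List β) (B : ℕ) (h : ∀ b ∈ l, esize b ≤ B) :
    esize l ≤ l.length * (B + 1) + 1 := by
  induction l with
  | nil => simp [esize_nil]
  | cons b l ih =>
    have h1 := ih (fun b' hb' => h b' (List.mem_cons_of_mem _ hb'))
    have h2 := h b List.mem_cons_self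
    rw [esize_cons, List.length_cons]
    nlinarith

/-- A bound for the size of the tables. -/
def tabBound (M : ℕ) : ℕ := M * (M * (M * (4 * M + 4) + 3 + 1) + 1 + 1) + 1

theorem esize_iterTab (c : Ctx) (n : ℕ) : esize (iterTab c n) ≤ tabBound c.2.length := by
  cases n with
  | zero =>
    change esize ([] : Tab) ≤ _
    rw [esize_nil]
    exact Nat.le_add_left _ _
  | succ n =>
    have hdef : iterTab c (n + 1) = stepTab c (iterTab c n) := by
      unfold iterTab
      rw [Function.iterate_succ_apply']
    rw [hdef]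
    have hrow : ∀ a < c.2.length, esize ((List.range c.2.length).map
        (fun b => entry c (iterTab c n) a b)) ≤
        c.2.length * (c.2.length * (4 * c.2.length + 4) + 3 + 1) + 1 := by
      intro a ha
      refine (esize_list_le _ (c.2.length * (4 * c.2.length + 4) + 3) ?_).trans ?_
      · intro o ho
        rw [List.mem_map] at ho
        obtain ⟨b, hb, rfl⟩ := ho
        rw [List.mem_range] at hb
        rw [← tget_stepTab c _ a b ha hb, ← hdef, tget_iterTab c _ a b ha hb]
        cases ht : table c.1.jobs (cU c) (cW c) (cLen c) c.2.length (n + 1) a b with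
        | none => rw [esize_none]; omega
        | some l =>
          obtain ⟨h1, h2⟩ := table_bound _ _ _ _ _ ht
          have h3 := esize_list_le l (4 * c.2.length + 3) (fun g hg => by
            obtain ⟨h4, h5⟩ := h2 g hg
            have : esize g = esize g.1 + esize g.2 + 1 := rfl
            rw [this, esize_nat, esize_nat]
            omega)
          rw [esize_some]
          have h6 : l.length * (4 * c.2.length + 3 + 1) ≤ c.2.length * (4 * c.2.length + 4) :=
            Nat.mul_le_mul_right _ (by omega)
          omega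
      · simp
    refine (esize_list_le _ (c.2.length * (c.2.length * (4 * c.2.length + 4) + 3 + 1) + 1)
      ?_).trans ?_
    · intro row hrow'
      unfold stepTab at hrow'
      rw [List.mem_map] at hrow'
      obtain ⟨a, ha, rfl⟩ := hrow'
      rw [List.mem_range] at ha
      exact hrow a ha
    · simp [tabBound, stepTab]

/-- The final table. -/
def finalTab (c : Ctx) : Tab := c.2.foldl (fun T _ => stepTab c T) []

theorem foldl_eq_iterate {α β : Type} (f : α → α) (l : List β) (x : α) :
    l.foldl (fun T _ => f T) x = f^[l.length] x := by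
  induction l generalizing x with
  | nil => rfl
  | cons b l ih => rw [List.foldl_cons, ih, List.length_cons, Function.iterate_succ_apply]

theorem poly_finalTab {f : α → Ctx} (hf : PolyTime f) : PolyTime (fun a => finalTab (f a)) := by
  have hM : PolyBd (fun a => (f a).2.length) :=
    (PolyTime.snd.comp hf).polyBd.of_le (fun a => (length_lt_esize _).le)
  have hT : PolyBd (fun a => tabBound (f a).2.length) := by
    unfold tabBound
    exact (hM.mul ((((hM.mul ((((hM.mul (((PolyBd.const 4).mul hM).add (.const 4))).add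
      (.const 3)).add (.const 1)))).add (.const 1)).add (.const 1)))).add (.const 1)
  refine PolyTime.foldl (f := fun a => (f a).2) (g := fun _ => [])
    (h := fun x : α × (Pt × Tab) => stepTab (f x.1) x.2.2) (PolyTime.snd.comp hf) (.const _)
    (poly_stepTab (hf.comp .fst) (PolyTime.snd.comp .snd)) hT ?_
  intro a l1 l2 _
  have h := foldl_eq_iterate (stepTab (f a)) l1 []
  have h2 := esize_iterTab (f a) l1.length
  unfold iterTab at h2
  rw [← h] at h2
  exact h2

/-! ### The schedule -/

/-- The start time of a job, given an optimal chain. -/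
def startTime (c : Ctx) (C : List (ℕ × ℕ)) (j : Job) : Frac :=
  fhalf (fadd
    ((pt c.2 (((C.find? (fun g => serves (cU c) (cW c) (cLen c) j g)).getD (0, 0)).1)).2.casesOn
      (motive := fun _ => Frac) j.r (fun t => fmax j.r (fadd t (shiftHi c.1 j))))
    (fsub ((pt c.2 (((C.find? (fun g => serves (cU c) (cW c) (cLen c) j g)).getD
      (0, 0)).2)).2.casesOn (motive := fun _ => Frac) j.d
        (fun t => fmin j.d (fadd t (shiftLo c.1 j)))) j.p))

theorem poly_startTime {f : α → Ctx} {C : α → List (ℕ × ℕ)} {j : α → Job} (hf : PolyTime f)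
    (hC : PolyTime C) (hj : PolyTime j) :
    PolyTime (fun a => startTime (f a) (C a) (j a)) := by
  have hgap : PolyTime (fun a => (((C a).find?
      (fun g => serves (cU (f a)) (cW (f a)) (cLen (f a)) (j a) g)).getD (0, 0))) := by
    refine PolyTime.option_getD (PolyTime.find? (p := fun y : α × (ℕ × ℕ) =>
      serves (cU (f y.1)) (cW (f y.1)) (cLen (f y.1)) (j y.1) y.2) hC ?_) (.const _)
    exact poly_serves (hf.comp .fst) (hj.comp .fst) .snd
  have hpts := PolyTime.snd.comp hf
  have e1 := PolyTime.snd.comp (poly_pt hpts (PolyTime.fst.comp hgap))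
  have e2 := PolyTime.snd.comp (poly_pt hpts (PolyTime.snd.comp hgap))
  have hlo := PolyTime.option_casesOn (g := fun y : α × Frac =>
    fmax (j y.1).r (fadd y.2 (shiftHi (f y.1).1 (j y.1)))) e1 hj.job_r
    (poly_fmax (hj.comp .fst).job_r (poly_fadd .snd
      (poly_shiftHi (PolyTime.fst.comp (hf.comp .fst)) (hj.comp .fst))))
  have hhi := PolyTime.option_casesOn (g := fun y : α × Frac =>
    fmin (j y.1).d (fadd y.2 (shiftLo (f y.1).1 (j y.1)))) e2 hj.job_d
    (poly_fmin (hj.comp .fst).job_d (poly_fadd .snd
      (poly_shiftLo (PolyTime.fst.comp (hf.comp .fst)) (hj.comp .fst))))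
  exact poly_fhalf (poly_fadd hlo (poly_fsub hhi hj.job_p))

/-- The optimal chain. -/
def bestChain (I : Inst) : List (ℕ × ℕ) :=
  (tget (finalTab (I, pts I)) 0 (I.starts.length + 1)).getD []

/-- The algorithm. -/
def algo (I : Inst) : List Frac :=
  I.jobs.map (fun j => startTime (I, pts I) (bestChain I) j)

theorem poly_algo : PolyTime algo := by
  have hid : PolyTime (fun I : Inst => I) := .id
  have hctx : PolyTime (fun I : Inst => ((I, pts I) : Ctx)) := hid.pair (poly_pts hid)
  have hstarts : PolyTime (fun I : Inst => I.starts) :=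
    PolyTime.fst.comp (PolyTime.snd.comp .snd)
  have hchain : PolyTime bestChain :=
    PolyTime.option_getD (poly_tget (poly_finalTab hctx) (.const 0) hstarts.length.succ)
      (.const _)
  refine PolyTime.map (f := fun I : Inst => I.jobs)
    (g := fun y : Inst × Job => startTime (y.1, pts y.1) (bestChain y.1) y.2) ?_ ?_
  · exact PolyTime.snd.comp (PolyTime.snd.comp .snd)
  · exact poly_startTime (hctx.comp .fst) (hchain.comp .fst) .snd

end Pool.Agent.Lib.MP2ca8f5
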