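import Pool.Agent.Lib.MP_2ca8f5_lc.Model

set_option autoImplicit false

/-!
# The maintenance scheduling problem
-/

namespace Pool.Agent.Lib.MP2ca8f5

/-- The value of a binary number, least significant digit first. -/
def val : List Bool → ℕ
  | [] => 0
  | b :: l => (bif b then 1 else 0) + 2 * val l

/-- Nonnegative fractions: numerator and denominator in binary. -/
abbrev Frac : Type := List Bool × List Bool

/-- The value of a fraction. -/
noncomputable def Frac.toReal (q : Frac) : ℝ := (val q.1 : ℝ) / (val q.2 : ℝ)

/-- A job: release time, deadline, processing time, and the two ends of its location interval. -/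
abbrev Job : Type := Frac × Frac × Frac × Frac × Frac

namespace Job

/-- Release time. -/
def r (j : Job) : Frac := j.1

/-- Deadline. -/
def d (j : Job) : Frac := j.2.1

/-- Processing time. -/
def p (j : Job) : Frac := j.2.2.1

/-- Lower end of the location interval. -/
def ls (j : Job) : Frac := j.2.2.2.1

/-- Upper end of the location interval. -/
def le (j : Job) : Frac := j.2.2.2.2

end Job

/-- An instance: length of the corridor, travel time, start times of the paths, jobs. -/
abbrev Inst : Type := Frac × Frac × List Frac × List Job

namespace Inst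

/-- Length of the corridor. -/
def len (I : Inst) : Frac := I.1

/-- Travel time of the train paths. -/
def delta (I : Inst) : Frac := I.2.1

/-- Start times of the train paths. -/
def starts (I : Inst) : List Frac := I.2.2.1

/-- The maintenance jobs. -/
def jobs (I : Inst) : List Job := I.2.2.2

end Inst

/-- A proper fraction: the denominator is positive. -/
def Frac.Proper (q : Frac) : Prop := 0 < val q.2

/-- The instances of the problem: all data are proper fractions, the corridor length `L` and the
travel time are positive, the start times are strictly increasing, and every job satisfies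
`r + p ≤ d` and `ls ≤ le ≤ L`. -/
structure Valid (I : Inst) : Prop where
  len_proper : I.len.Proper
  delta_proper : I.delta.Proper
  starts_proper : ∀ t ∈ I.starts, Frac.Proper t
  jobs_proper : ∀ j ∈ I.jobs, j.r.Proper ∧ j.d.Proper ∧ j.p.Proper ∧ j.ls.Proper ∧ j.le.Proper
  len_pos : 0 < I.len.toReal
  delta_pos : 0 < I.delta.toReal
  starts_increasing : I.starts.Pairwise (fun t t' => t.toReal < t'.toReal)
  window : ∀ j ∈ I.jobs, j.r.toReal + j.p.toReal ≤ j.d.toReal
  location : ∀ j ∈ I.jobs, j.ls.toReal ≤ j.le.toReal ∧ j.le.toReal ≤ I.len.toReal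

/-- `s` is a schedule: it gives each job `j` a start time in `[r, d - p]`. -/
def IsSchedule (I : Inst) (s : List ℝ) : Prop :=
  List.Forall₂ (fun (j : Job) (x : ℝ) => j.r.toReal ≤ x ∧ x ≤ j.d.toReal - j.p.toReal) I.jobs s

/-- The path from `(t, 0)` to `(t + delta, L)` meets the box `[x, x + p] × [ls, le]` of the job
`j` started at time `x`. -/
def Meets (I : Inst) (t : ℝ) (j : Job) (x : ℝ) : Prop :=
  ∃ θ : ℝ, 0 ≤ θ ∧ θ ≤ 1 ∧
    t + θ * I.delta.toReal ∈ Set.Icc x (x + j.p.toReal) ∧
    θ * I.len.toReal ∈ Set.Icc j.ls.toReal j.le.toReal

/-- The path starting at time `t` is cancelled by the schedule `s`. -/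
def Cancelled (I : Inst) (s : List ℝ) (t : ℝ) : Prop :=
  ∃ q ∈ I.jobs.zip s, Meets I t q.1 q.2

open Classical in
/-- The number of cancelled paths. -/
noncomputable def numCancelled (I : Inst) (s : List ℝ) : ℕ :=
  I.starts.countP (fun t => decide (Cancelled I s t.toReal))

end Pool.Agent.Lib.MP2ca8f5
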