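import Pool.Agent.Lib.MP_2ca8f5_lc.Lists
import Pool.Agent.Lib.MP_2ca8f5_lc.Problem

set_option autoImplicit false

/-!
# Binary arithmetic in polynomial time
-/

namespace Pool.Agent.Lib.MP2ca8f5

variable {α β γ δ σ τ : Type} [Enc α] [Enc β] [Enc γ] [Enc δ] [Enc σ] [Enc τ]

theorem val_nil : val [] = 0 := rfl

theorem val_cons (b : Bool) (l : List Bool) : val (b :: l) = (bif b then 1 else 0) + 2 * val l :=
  rfl

theorem val_append_singleton (l : List Bool) (b : Bool) :
    val (l ++ [b]) = val l + 2 ^ l.length * (bif b then 1 else 0) := by
  induction l with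
  | nil => simp [val]
  | cons a l ih =>
    rw [List.cons_append, val_cons, ih, val_cons, List.length_cons]
    ring

theorem val_lt (l : List Bool) : val l < 2 ^ l.length := by
  induction l with
  | nil => simp [val]
  | cons a l ih =>
    rw [val_cons, List.length_cons, pow_succ]
    cases a <;> simp <;> omega

theorem val_head_tail (l : List Bool) :
    val l = (bif (l.head?.getD false) then 1 else 0) + 2 * val l.tail := by
  cases l with
  | nil => simp [val]
  | cons a l => simp [val]

/-- One step of the ripple carry adder (`neg = true`: the second argument is complemented). -/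
def rippleStep (neg : Bool) (s : Bool × (List Bool × (List Bool × List Bool))) :
    Bool × (List Bool × (List Bool × List Bool)) :=
  (((s.2.1.head?.getD false) && (Bool.xor neg (s.2.2.1.head?.getD false))) ||
      (s.1 && Bool.xor (s.2.1.head?.getD false) (Bool.xor neg (s.2.2.1.head?.getD false))),
    (s.2.1.tail, (s.2.2.1.tail,
      (Bool.xor (Bool.xor (s.2.1.head?.getD false) (Bool.xor neg (s.2.2.1.head?.getD false))) s.1)
        :: s.2.2.2)))

/-- The ripple carry adder. -/
def ripple (neg : Bool) (x y : List Bool) : Bool × (List Bool × (List Bool × List Bool)) :=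
  (x ++ y).foldl (fun s _ => rippleStep neg s) (neg, (x, (y, [])))

theorem PolyTime.ripple (neg : Bool) {f g : α → List Bool} (hf : PolyTime f) (hg : PolyTime g) :
    PolyTime (fun a => ripple neg (f a) (g a)) := by
  refine PolyTime.foldl_add (g := fun a => (neg, (f a, (g a, []))))
    (h := fun x : α × (Bool × (Bool × (List Bool × (List Bool × List Bool)))) =>
      rippleStep neg x.2.2) (K := fun _ => 10) (hf.append hg)
    ((PolyTime.const neg).pair (hf.pair (hg.pair (.const [])))) ?_ (.const 10) ?_
  · have e : PolyTime (fun x : α × (Bool × (Bool × (List Bool × (List Bool × List Bool)))) =>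
        x.2.2) := PolyTime.snd.comp .snd
    have e1 := PolyTime.fst.comp e
    have e2 := PolyTime.fst.comp (PolyTime.snd.comp e)
    have e3 := PolyTime.fst.comp (PolyTime.snd.comp (PolyTime.snd.comp e))
    have e4 := PolyTime.snd.comp (PolyTime.snd.comp (PolyTime.snd.comp e))
    have a1 := e2.head?.option_getD (.const false)
    have a2 := PolyTime.xor (PolyTime.const neg) (e3.head?.option_getD (.const false))
    exact (((a1.and a2).or (e1.and (a1.xor a2)))).pair (e2.tail.pair (e3.tail.pair
      (PolyTime.list_cons ((a1.xor a2).xor e1) e4)))
  · intro a b _ s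
    obtain ⟨c, xs, ys, out⟩ := s
    simp only [rippleStep]
    rw [esize_pair, esize_pair, esize_pair, esize_pair, esize_pair, esize_pair, esize_cons]
    have h1 : esize xs.tail ≤ esize xs := by
      cases xs with
      | nil => simp
      | cons x s => rw [List.tail_cons, esize_cons]; omega
    have h2 : esize ys.tail ≤ esize ys := by
      cases ys with
      | nil => simp
      | cons x s => rw [List.tail_cons, esize_cons]; omega
    have h3 := esize_pos c
    have h4 := esize_bool (((xs.head?.getD false) && (Bool.xor neg (ys.head?.getD false))) ||
      (c && Bool.xor (xs.head?.getD false) (Bool.xor neg (ys.head?.getD false))))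
    have h5 := esize_bool (Bool.xor (Bool.xor (xs.head?.getD false)
      (Bool.xor neg (ys.head?.getD false))) c)
    omega

theorem rippleStep_add (c : Bool) (xs ys out : List Bool) :
    let s := rippleStep false (c, (xs, (ys, out)))
    val s.2.2.2.reverse + 2 ^ (out.length + 1) *
      ((bif s.1 then 1 else 0) + val s.2.1 + val s.2.2.1) =
    val out.reverse + 2 ^ out.length * ((bif c then 1 else 0) + val xs + val ys) := by
  intro s
  have hx := val_head_tail xs
  have hy := val_head_tail ys
  simp only [s, rippleStep]
  rw [List.reverse_cons, val_append_singleton, List.length_reverse, hx, hy, pow_succ]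
  cases xs.head?.getD false <;> cases ys.head?.getD false <;> cases c <;> simp <;> ring

theorem ripple_add_aux (l : List Bool) (c : Bool) (xs ys out : List Bool) :
    let s := l.foldl (fun s _ => rippleStep false s) (c, (xs, (ys, out)))
    val s.2.2.2.reverse + 2 ^ s.2.2.2.length *
      ((bif s.1 then 1 else 0) + val s.2.1 + val s.2.2.1) =
    val out.reverse + 2 ^ out.length * ((bif c then 1 else 0) + val xs + val ys) ∧
    s.2.2.2.length = out.length + l.length ∧ s.2.1 = xs.drop l.length ∧
      s.2.2.1 = ys.drop l.length := by
  induction l generalizing c xs ys out with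
  | nil => simp
  | cons b l ih =>
    have h1 := ih (rippleStep false (c, (xs, (ys, out)))).1
      (rippleStep false (c, (xs, (ys, out)))).2.1
      (rippleStep false (c, (xs, (ys, out)))).2.2.1
      (rippleStep false (c, (xs, (ys, out)))).2.2.2
    have h2 := rippleStep_add c xs ys out
    simp only at h1 h2 ⊢
    obtain ⟨h3, h4, h5, h6⟩ := h1
    rw [List.foldl_cons]
    refine ⟨h3.trans ?_, ?_, ?_, ?_⟩
    · rw [← h2]
      rfl
    · rw [h4]
      simp only [rippleStep, List.length_cons]
      omega
    · rw [h5]
      simp [rippleStep]
    · rw [h6]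
      simp [rippleStep]

theorem rippleStep_sub (c : Bool) (xs ys out : List Bool) :
    let s := rippleStep true (c, (xs, (ys, out)))
    (val s.2.2.2.reverse : ℤ) + 2 ^ (out.length + 1) *
      ((bif s.1 then 1 else 0) - 1 + val s.2.1 - val s.2.2.1) =
    val out.reverse + 2 ^ out.length * ((bif c then 1 else 0) - 1 + val xs - val ys) := by
  intro s
  have hx := val_head_tail xs
  have hy := val_head_tail ys
  simp only [s, rippleStep]
  rw [List.reverse_cons, val_append_singleton, List.length_reverse, hx, hy, pow_succ]
  cases xs.head?.getD false <;> cases ys.head?.getD false <;> cases c <;> simp <;> ring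

theorem ripple_sub_aux (l : List Bool) (c : Bool) (xs ys out : List Bool) :
    let s := l.foldl (fun s _ => rippleStep true s) (c, (xs, (ys, out)))
    (val s.2.2.2.reverse : ℤ) + 2 ^ s.2.2.2.length *
      ((bif s.1 then 1 else 0) - 1 + val s.2.1 - val s.2.2.1) =
    val out.reverse + 2 ^ out.length * ((bif c then 1 else 0) - 1 + val xs - val ys) ∧
    s.2.2.2.length = out.length + l.length ∧ s.2.1 = xs.drop l.length ∧
      s.2.2.1 = ys.drop l.length := by
  induction l generalizing c xs ys out with
  | nil => simp
  | cons b l ih =>
    have h1 := ih (rippleStep true (c, (xs, (ys, out)))).1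
      (rippleStep true (c, (xs, (ys, out)))).2.1
      (rippleStep true (c, (xs, (ys, out)))).2.2.1
      (rippleStep true (c, (xs, (ys, out)))).2.2.2
    have h2 := rippleStep_sub c xs ys out
    simp only at h1 h2 ⊢
    obtain ⟨h3, h4, h5, h6⟩ := h1
    rw [List.foldl_cons]
    refine ⟨h3.trans ?_, ?_, ?_, ?_⟩
    · rw [← h2]
      rfl
    · rw [h4]
      simp only [rippleStep, List.length_cons]
      omega
    · rw [h5]
      simp [rippleStep]
    · rw [h6]
      simp [rippleStep]

/-- Addition of binary numbers. -/
def addB (x y : List Bool) : List Bool :=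
  ((ripple false x y).1 :: (ripple false x y).2.2.2).reverse

/-- Comparison of binary numbers. -/
def geB (x y : List Bool) : Bool := (ripple true x y).1

/-- Subtraction of binary numbers. -/
def subB (x y : List Bool) : List Bool := (ripple true x y).2.2.2.reverse

theorem val_addB (x y : List Bool) : val (addB x y) = val x + val y := by
  have h := ripple_add_aux (x ++ y) false x y []
  simp only at h
  obtain ⟨h1, h2, h3, h4⟩ := h
  have h5 : x.drop (x ++ y).length = [] := by simp
  have h6 : y.drop (x ++ y).length = [] := by simp
  rw [h5] at h3
  rw [h6] at h4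
  rw [h3, h4] at h1
  unfold addB ripple
  rw [List.reverse_cons, val_append_singleton, List.length_reverse]
  simp only [val_nil, add_zero, List.reverse_nil, List.length_nil, pow_zero, one_mul, cond_false,
    zero_add] at h1
  exact h1

theorem length_addB (x y : List Bool) : (addB x y).length = x.length + y.length + 1 := by
  have h := ripple_add_aux (x ++ y) false x y []
  simp only at h
  obtain ⟨_, h2, _, _⟩ := h
  unfold addB ripple
  rw [List.length_reverse, List.length_cons, h2]
  simp

theorem ripple_sub_spec (x y : List Bool) :
    (val (subB x y) : ℤ) + 2 ^ (subB x y).length * ((bif geB x y then 1 else 0) - 1) =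
      val x - val y := by
  have h := ripple_sub_aux (x ++ y) true x y []
  simp only at h
  obtain ⟨h1, h2, h3, h4⟩ := h
  have h5 : x.drop (x ++ y).length = [] := by simp
  have h6 : y.drop (x ++ y).length = [] := by simp
  rw [h5] at h3
  rw [h6] at h4
  rw [h3, h4] at h1
  unfold subB geB ripple
  rw [List.length_reverse]
  simp only [val_nil, List.reverse_nil, List.length_nil, pow_zero, one_mul, cond_true,
    Nat.cast_zero, add_zero, sub_zero, sub_self, zero_add] at h1
  exact h1

theorem geB_iff (x y : List Bool) : geB x y = true ↔ val y ≤ val x := by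
  have h := ripple_sub_spec x y
  have h1 : (val (subB x y) : ℤ) < 2 ^ (subB x y).length := by exact_mod_cast val_lt _
  cases hg : geB x y with
  | true =>
    rw [hg] at h
    simp only [cond_true, sub_self, mul_zero, add_zero] at h
    simp only [true_iff]
    have : (0 : ℤ) ≤ val (subB x y) := by positivity
    omega
  | false =>
    rw [hg] at h
    simp only [cond_false, zero_sub, mul_neg, mul_one] at h
    simp only [Bool.false_eq_true, false_iff, not_le]
    omega

theorem val_subB (x y : List Bool) (h : val y ≤ val x) : val (subB x y) = val x - val y := by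
  have h1 := ripple_sub_spec x y
  rw [(geB_iff x y).2 h] at h1
  simp only [cond_true, sub_self, mul_zero, add_zero] at h1
  omega

theorem PolyTime.addB {f g : α → List Bool} (hf : PolyTime f) (hg : PolyTime g) :
    PolyTime (fun a => addB (f a) (g a)) := by
  have h := PolyTime.ripple false hf hg
  exact (PolyTime.list_cons (PolyTime.fst.comp h)
    (PolyTime.snd.comp (PolyTime.snd.comp (PolyTime.snd.comp h)))).reverse

theorem PolyTime.geB {f g : α → List Bool} (hf : PolyTime f) (hg : PolyTime g) :
    PolyTime (fun a => geB (f a) (g a)) :=
  PolyTime.fst.comp (PolyTime.ripple true hf hg)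

theorem PolyTime.subB {f g : α → List Bool} (hf : PolyTime f) (hg : PolyTime g) :
    PolyTime (fun a => subB (f a) (g a)) :=
  (PolyTime.snd.comp (PolyTime.snd.comp (PolyTime.snd.comp
    (PolyTime.ripple true hf hg)))).reverse

/-- Multiplication of binary numbers. -/
def mulB (x y : List Bool) : List Bool :=
  x.reverse.foldl (fun s b => Pool.Agent.Lib.MP2ca8f5.addB (false :: s) (bif b then y else [])) []

theorem val_mulB (x y : List Bool) : val (mulB x y) = val x * val y := by
  unfold mulB
  induction x with
  | nil => simp [val]
  | cons b x ih =>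
    rw [List.reverse_cons, List.foldl_append, List.foldl_cons, List.foldl_nil, val_addB,
      val_cons, val_cons, ih]
    cases b <;> simp [val] <;> ring

theorem esize_bits (l : List Bool) : esize l ≤ 4 * l.length + 4 := by
  induction l with
  | nil => rw [esize_nil]; omega
  | cons b l ih =>
    have := esize_bool b
    rw [esize_cons, List.length_cons]
    omega

theorem PolyTime.mulB {f g : α → List Bool} (hf : PolyTime f) (hg : PolyTime g) :
    PolyTime (fun a => mulB (f a) (g a)) := by
  have hK : PolyBd (fun a => esize (g a) + 2) := hg.polyBd.add (.const 2)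
  refine PolyTime.foldl_mu (f := fun a => (f a).reverse) (g := fun _ => [])
    (h := fun x : α × (Bool × List Bool) =>
      Pool.Agent.Lib.MP2ca8f5.addB (false :: x.2.2) (bif x.2.1 then g x.1 else []))
    (K := fun a => esize (g a) + 2) (fun s => s.length) 4 hf.reverse (.const []) ?_ esize_bits
    (.const 0) hK ?_
  · refine PolyTime.addB (PolyTime.list_cons (.const false) (PolyTime.snd.comp .snd)) ?_
    exact PolyTime.cond (PolyTime.fst.comp .snd) (hg.comp .fst) (.const [])
  · intro a b _ s
    have h1 := length_lt_esize (g a)
    simp only [length_addB, List.length_cons]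
    cases b
    · simp only [cond_false, List.length_nil]; omega
    · simp only [cond_true]; omega

end Pool.Agent.Lib.MP2ca8f5
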