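import Pool.Agent.Lib.MP_2ca8f5_lc.Model

set_option autoImplicit false

/-!
# Closure properties of polynomial time computable functions
-/

namespace Pool.Agent.Lib.MP2ca8f5

theorem D.size_pos (x : D) : 1 ≤ x.size := by
  cases x <;> simp [D.size]

theorem D.size_hd_le (x : D) : x.hd.size ≤ x.size := by
  cases x <;> (simp [D.size, D.hd]; try omega)

theorem D.size_tl_le (x : D) : x.tl.size ≤ x.size := by
  cases x <;> (simp [D.size, D.tl]; try omega)

/-- The output of a computation is not larger than its time. -/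
theorem Run.size_le {p : Prog} {x y : D} {t : ℕ} (h : Run p x y t) : y.size ≤ t := by
  induction h with
  | nil x => exact x.size_pos
  | id x => exact le_rfl
  | hd x => exact x.size_hd_le
  | tl x => exact x.size_tl_le
  | cons _ _ ih1 ih2 => simp only [D.size]; omega
  | comp _ _ _ ih2 => omega
  | ite_true _ _ _ ih2 => omega
  | ite_false _ _ _ ih2 => omega
  | loop_stop _ _ => omega
  | loop_step _ _ _ _ _ ih3 => omega

/-- The programming language is deterministic: output and time are unique. -/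
theorem Run.unique {p : Prog} {x y y' : D} {t t' : ℕ} (h : Run p x y t) (h' : Run p x y' t') :
    y = y' ∧ t = t' := by
  induction h generalizing y' t' with
  | nil x => cases h'; exact ⟨rfl, rfl⟩
  | id x => cases h'; exact ⟨rfl, rfl⟩
  | hd x => cases h'; exact ⟨rfl, rfl⟩
  | tl x => cases h'; exact ⟨rfl, rfl⟩
  | cons _ _ ih1 ih2 =>
    cases h' with
    | cons a b =>
      obtain ⟨rfl, rfl⟩ := ih1 a
      obtain ⟨rfl, rfl⟩ := ih2 b
      exact ⟨rfl, rfl⟩
  | comp _ _ ih1 ih2 =>
    cases h' with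
    | comp a b =>
      obtain ⟨rfl, rfl⟩ := ih1 a
      obtain ⟨rfl, rfl⟩ := ih2 b
      exact ⟨rfl, rfl⟩
  | ite_true _ _ ih1 ih2 =>
    cases h' with
    | ite_true a b =>
      obtain ⟨h1, rfl⟩ := ih1 a
      obtain ⟨rfl, rfl⟩ := ih2 b
      exact ⟨rfl, rfl⟩
    | ite_false a b =>
      obtain ⟨h1, _⟩ := ih1 a
      cases h1
  | ite_false _ _ ih1 ih2 =>
    cases h' with
    | ite_true a b =>
      obtain ⟨h1, _⟩ := ih1 a
      cases h1
    | ite_false a b =>
      obtain ⟨h1, rfl⟩ := ih1 a
      obtain ⟨rfl, rfl⟩ := ih2 b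
      exact ⟨rfl, rfl⟩
  | loop_stop _ ih1 =>
    cases h' with
    | loop_stop a =>
      obtain ⟨_, rfl⟩ := ih1 a
      exact ⟨rfl, rfl⟩
    | loop_step a _ _ =>
      obtain ⟨h1, _⟩ := ih1 a
      cases h1
  | loop_step _ _ _ ih1 ih2 ih3 =>
    cases h' with
    | loop_stop a =>
      obtain ⟨h1, _⟩ := ih1 a
      cases h1
    | loop_step a b c =>
      obtain ⟨_, rfl⟩ := ih1 a
      obtain ⟨rfl, rfl⟩ := ih2 b
      obtain ⟨rfl, rfl⟩ := ih3 c
      exact ⟨rfl, rfl⟩

variable {α β γ δ σ τ : Type} [Enc α] [Enc β] [Enc γ] [Enc δ] [Enc σ] [Enc τ]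

theorem esize_pos (a : α) : 1 ≤ esize a := D.size_pos _

theorem esize_pair (a : α) (b : β) : esize (a, b) = esize a + esize b + 1 := rfl

theorem esize_nil : esize ([] : List α) = 1 := rfl

theorem esize_cons (a : α) (l : List α) : esize (a :: l) = esize a + esize l + 1 := rfl

theorem esize_append (l l' : List α) : esize (l ++ l') + 1 = esize l + esize l' := by
  induction l with
  | nil => rw [esize_nil, List.nil_append]; omega
  | cons a l ih => rw [List.cons_append, esize_cons, esize_cons]; omega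

theorem esize_reverse (l : List α) : esize l.reverse = esize l := by
  induction l with
  | nil => rfl
  | cons a l ih =>
    have := esize_append l.reverse [a]
    rw [List.reverse_cons, esize_cons]
    rw [esize_cons, esize_nil] at this
    omega

theorem length_lt_esize (l : List α) : l.length < esize l := by
  induction l with
  | nil => simp [esize_nil]
  | cons a l ih => rw [esize_cons, List.length_cons]; omega

theorem esize_mem {l : List α} {a : α} (h : a ∈ l) : esize a < esize l := by
  induction l with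
  | nil => simp at h
  | cons b l ih =>
    rw [esize_cons]
    rcases List.mem_cons.1 h with h | h
    · subst h; omega
    · have := ih h; omega

theorem esize_bool (b : Bool) : esize b ≤ 3 := by
  cases b <;> decide

/-- Polynomially bounded functions of the input length. -/
def PolyBd (t : α → ℕ) : Prop := ∃ c k : ℕ, ∀ a, t a ≤ c * esize a ^ k

theorem PolyBd.of_le {t t' : α → ℕ} (h : PolyBd t') (hle : ∀ a, t a ≤ t' a) : PolyBd t := by
  obtain ⟨c, k, h⟩ := h
  exact ⟨c, k, fun a => (hle a).trans (h a)⟩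

theorem PolyBd.const (n : ℕ) : PolyBd (fun _ : α => n) := ⟨n, 0, fun a => by simp⟩

theorem PolyBd.self : PolyBd (fun a : α => esize a) := ⟨1, 1, fun a => by simp⟩

theorem PolyBd.add {t t' : α → ℕ} (h : PolyBd t) (h' : PolyBd t') :
    PolyBd (fun a => t a + t' a) := by
  obtain ⟨c, k, h⟩ := h
  obtain ⟨c', k', h'⟩ := h'
  refine ⟨c + c', max k k', fun a => ?_⟩
  have h1 : esize a ^ k ≤ esize a ^ (max k k') :=
    Nat.pow_le_pow_right (esize_pos a) (le_max_left _ _)
  have h2 : esize a ^ k' ≤ esize a ^ (max k k') :=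
    Nat.pow_le_pow_right (esize_pos a) (le_max_right _ _)
  calc t a + t' a ≤ c * esize a ^ k + c' * esize a ^ k' := add_le_add (h a) (h' a)
    _ ≤ c * esize a ^ (max k k') + c' * esize a ^ (max k k') :=
      add_le_add (Nat.mul_le_mul_left _ h1) (Nat.mul_le_mul_left _ h2)
    _ = (c + c') * esize a ^ (max k k') := by ring

theorem PolyBd.mul {t t' : α → ℕ} (h : PolyBd t) (h' : PolyBd t') :
    PolyBd (fun a => t a * t' a) := by
  obtain ⟨c, k, h⟩ := h
  obtain ⟨c', k', h'⟩ := h'
  refine ⟨c * c', k + k', fun a => ?_⟩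
  calc t a * t' a ≤ (c * esize a ^ k) * (c' * esize a ^ k') := Nat.mul_le_mul (h a) (h' a)
    _ = (c * c') * esize a ^ (k + k') := by ring

theorem PolyBd.pow {t : α → ℕ} (h : PolyBd t) (n : ℕ) : PolyBd (fun a => t a ^ n) := by
  obtain ⟨c, k, h⟩ := h
  refine ⟨c ^ n, k * n, fun a => ?_⟩
  calc t a ^ n ≤ (c * esize a ^ k) ^ n := Nat.pow_le_pow_left (h a) n
    _ = c ^ n * esize a ^ (k * n) := by rw [mul_pow, pow_mul]

theorem PolyBd.comp {t : β → ℕ} {f : α → β} (h : PolyBd t)
    (hf : PolyBd (fun a => esize (f a))) : PolyBd (fun a => t (f a)) := by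
  obtain ⟨c, k, h⟩ := h
  exact ((PolyBd.const c).mul (hf.pow k)).of_le (fun a => h (f a))

/-- Working form of the definition. -/
theorem PolyTime.mk {f : α → β} (p : Prog) (T : α → ℕ) (hT : PolyBd T)
    (h : ∀ a, ∃ t, Run p (enc a) (enc (f a)) t ∧ t ≤ T a) : PolyTime f := by
  obtain ⟨c, k, hT⟩ := hT
  refine ⟨p, c, k, fun a => ?_⟩
  obtain ⟨t, ht, hle⟩ := h a
  exact ⟨t, ht, hle.trans (hT a)⟩

theorem PolyTime.out {f : α → β} (h : PolyTime f) :
    ∃ (p : Prog) (T : α → ℕ), PolyBd T ∧ ∀ a, ∃ t, Run p (enc a) (enc (f a)) t ∧ t ≤ T a := by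
  obtain ⟨p, c, k, h⟩ := h
  exact ⟨p, fun a => c * esize a ^ k, ⟨c, k, fun a => le_rfl⟩, h⟩

theorem PolyTime.polyBd {f : α → β} (h : PolyTime f) : PolyBd (fun a => esize (f a)) := by
  obtain ⟨p, T, hT, h⟩ := h.out
  refine hT.of_le fun a => ?_
  obtain ⟨t, ht, hle⟩ := h a
  exact ht.size_le.trans hle

theorem PolyTime.of_eq {f g : α → β} (hf : PolyTime f) (h : ∀ a, f a = g a) : PolyTime g :=
  (funext h : f = g) ▸ hf

theorem PolyTime.id : PolyTime (fun a : α => a) :=
  .mk .id (fun a => esize a) .self (fun a => ⟨_, Run.id _, le_rfl⟩)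

theorem PolyTime.comp {f : β → γ} {g : α → β} (hf : PolyTime f) (hg : PolyTime g) :
    PolyTime (fun a => f (g a)) := by
  have hs := hg.polyBd
  obtain ⟨p, T, hT, h⟩ := hf.out
  obtain ⟨q, S, hS, h'⟩ := hg.out
  refine .mk (.comp p q) (fun a => S a + T (g a) + 1) ((hS.add (hT.comp hs)).add (.const 1)) ?_
  intro a
  obtain ⟨s, hs, hsle⟩ := h' a
  obtain ⟨t, ht, htle⟩ := h (g a)
  exact ⟨_, Run.comp hs ht, by omega⟩

theorem PolyTime.pair {f : α → β} {g : α → γ} (hf : PolyTime f) (hg : PolyTime g) :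
    PolyTime (fun a => (f a, g a)) := by
  obtain ⟨p, T, hT, h⟩ := hf.out
  obtain ⟨q, S, hS, h'⟩ := hg.out
  refine .mk (.cons p q) (fun a => esize a + T a + S a + 1)
    (((PolyBd.self.add hT).add hS).add (.const 1)) ?_
  intro a
  obtain ⟨s, hs, hsle⟩ := h a
  obtain ⟨t, ht, htle⟩ := h' a
  refine ⟨_, Run.cons hs ht, ?_⟩
  change esize a + s + t + 1 ≤ _
  omega

theorem PolyTime.fst : PolyTime (fun p : α × β => p.1) :=
  .mk .hd (fun a => esize a) .self (fun a => ⟨_, Run.hd _, le_rfl⟩)

theorem PolyTime.snd : PolyTime (fun p : α × β => p.2) :=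
  .mk .tl (fun a => esize a) .self (fun a => ⟨_, Run.tl _, le_rfl⟩)

/-- A program with constant output. -/
def Prog.const : D → Prog
  | .nil => .nil
  | .cons a b => .cons (Prog.const a) (Prog.const b)

theorem Run.const (d x : D) : ∃ t, Run (Prog.const d) x d t ∧ t ≤ d.size * (x.size + 1) := by
  induction d with
  | nil =>
    refine ⟨_, Run.nil x, ?_⟩
    simp [D.size]
  | cons a b iha ihb =>
    obtain ⟨s, hs, hs'⟩ := iha
    obtain ⟨t, ht, ht'⟩ := ihb
    refine ⟨_, Run.cons hs ht, ?_⟩
    simp only [D.size]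
    nlinarith

theorem PolyTime.const (b : β) : PolyTime (fun _ : α => b) := by
  refine .mk (Prog.const (enc b)) (fun a => esize b * (esize a + 1))
    ((PolyBd.const _).mul (PolyBd.self.add (.const 1))) ?_
  intro a
  exact Run.const _ _

theorem PolyTime.cond {c : α → Bool} {f g : α → β} (hc : PolyTime c) (hf : PolyTime f)
    (hg : PolyTime g) : PolyTime (fun a => bif c a then f a else g a) := by
  obtain ⟨r, R, hR, h0⟩ := hc.out
  obtain ⟨p, T, hT, h⟩ := hf.out
  obtain ⟨q, S, hS, h'⟩ := hg.out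
  refine .mk (.ite r p q) (fun a => esize a + R a + T a + S a)
    (((PolyBd.self.add hR).add hT).add hS) ?_
  intro a
  obtain ⟨u, hu, hule⟩ := h0 a
  obtain ⟨s, hs, hsle⟩ := h a
  obtain ⟨t, ht, htle⟩ := h' a
  cases hca : c a with
  | true =>
    rw [hca] at hu
    refine ⟨_, Run.ite_true (y := .nil) (y' := .nil) hu hs, ?_⟩
    change esize a + u + s ≤ _
    omega
  | false =>
    rw [hca] at hu
    refine ⟨_, Run.ite_false hu ht, ?_⟩
    change esize a + u + t ≤ _
    omega

theorem PolyTime.list_cons {f : α → β} {g : α → List β} (hf : PolyTime f) (hg : PolyTime g) :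
    PolyTime (fun a => f a :: g a) := by
  obtain ⟨p, c, k, h⟩ := hf.pair hg
  exact ⟨p, c, k, h⟩

theorem PolyTime.list_casesOn {l : α → List β} {f : α → γ} {g : α × (β × List β) → γ}
    (hl : PolyTime l) (hf : PolyTime f) (hg : PolyTime g) :
    PolyTime (fun a => (l a).casesOn (motive := fun _ => γ) (f a) (fun b l' => g (a, (b, l')))) := by
  obtain ⟨r, R, hR, h0⟩ := hl.out
  obtain ⟨p, T, hT, h⟩ := hf.out
  obtain ⟨q, S, hS, h'⟩ := hg.out
  have hpair : PolyBd (fun a => esize (a, l a)) := (PolyTime.id.pair hl).polyBd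
  obtain ⟨c, k, hS'⟩ := hS
  have hSb : PolyBd (fun a : α => c * esize (a, l a) ^ k) := (PolyBd.const c).mul (hpair.pow k)
  refine .mk (.ite r (.comp q (.cons .id r)) p)
    (fun a => esize a + R a + (esize a + esize a + R a + 1 + c * esize (a, l a) ^ k + 1) + T a)
    ((((PolyBd.self.add hR).add
      (((((PolyBd.self.add PolyBd.self).add hR).add (.const 1)).add hSb).add (.const 1)))).add hT) ?_
  intro a
  obtain ⟨u, hu, hule⟩ := h0 a
  obtain ⟨s, hs, hsle⟩ := h a
  cases hla : l a with
  | nil =>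
    rw [hla] at hu
    refine ⟨_, Run.ite_false hu hs, ?_⟩
    change esize a + u + s ≤ _
    omega
  | cons b l' =>
    obtain ⟨t, ht, htle⟩ := h' (a, (b, l'))
    rw [hla] at hu
    have hcons : Run (.cons .id r) (enc a) (enc (a, (b, l'))) _ := Run.cons (Run.id _) hu
    refine ⟨_, Run.ite_true hu (Run.comp hcons ht), ?_⟩
    have h1 : t ≤ c * esize (a, l a) ^ k := by
      refine htle.trans ((hS' _).trans (le_of_eq ?_))
      rw [hla]
      rfl
    have h2 : (enc a).size = esize a := rfl
    rw [h2]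
    rw [hla] at h1
    omega

/-- Loops. -/
theorem Run.loop {c p : Prog} (x : ℕ → D) (n : ℕ) (B : ℕ)
    (hstop : ∃ s, Run c (x n) .nil s ∧ (x n).size + s ≤ B)
    (hstep : ∀ i < n, ∃ y y' s t, Run c (x i) (.cons y y') s ∧ Run p (x i) (x (i + 1)) t ∧
      (x i).size + s + t ≤ B) :
    ∃ t, Run (.loop c p) (x 0) (x n) t ∧ t ≤ (n + 1) * B := by
  induction n generalizing x with
  | zero =>
    obtain ⟨s, hs, hB⟩ := hstop
    exact ⟨_, Run.loop_stop hs, by omega⟩
  | succ n ih =>
    obtain ⟨t, ht, hle⟩ := ih (fun i => x (i + 1)) hstop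
      (fun i hi => hstep (i + 1) (by omega))
    obtain ⟨y, y', s, u, h1, h2, h3⟩ := hstep 0 (by omega)
    refine ⟨_, Run.loop_step h1 h2 ht, ?_⟩
    calc (x 0).size + s + u + t ≤ B + (n + 1) * B := by omega
      _ = (n + 1 + 1) * B := by ring

theorem PolyTime.while_loop {init : α → σ} {c : σ → Bool} {g : σ → σ} {n : α → ℕ} {T : α → ℕ}
    (hinit : PolyTime init) (hc : PolyTime c) (hg : PolyTime g) (hn : PolyBd n) (hT : PolyBd T)
    (h1 : ∀ a, ∀ i < n a, c (g^[i] (init a)) = true) (h2 : ∀ a, c (g^[n a] (init a)) = false)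
    (hsz : ∀ a, ∀ i ≤ n a, esize (g^[i] (init a)) ≤ T a) :
    PolyTime (fun a => g^[n a] (init a)) := by
  obtain ⟨r, c1, k1, h0⟩ := hc
  obtain ⟨p, c2, k2, h⟩ := hg
  obtain ⟨q, S, hS, h'⟩ := hinit.out
  have hB : PolyBd (fun a => T a + c1 * T a ^ k1 + c2 * T a ^ k2) :=
    (hT.add ((PolyBd.const _).mul (hT.pow _))).add ((PolyBd.const _).mul (hT.pow _))
  refine .mk (.comp (.loop r p) q)
    (fun a => S a + (n a + 1) * (T a + c1 * T a ^ k1 + c2 * T a ^ k2) + 1)
    ((hS.add ((hn.add (.const 1)).mul hB)).add (.const 1)) ?_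
  intro a
  obtain ⟨s, hs, hsle⟩ := h' a
  have hc' : ∀ i ≤ n a, ∃ t, Run r (enc (g^[i] (init a))) (enc (c (g^[i] (init a)))) t ∧
      t ≤ c1 * T a ^ k1 := by
    intro i hi
    obtain ⟨t, ht, htle⟩ := h0 (g^[i] (init a))
    exact ⟨t, ht, htle.trans (Nat.mul_le_mul_left _ (Nat.pow_le_pow_left (hsz a i hi) _))⟩
  obtain ⟨t, ht, htle⟩ := Run.loop (c := r) (p := p) (fun i => enc (g^[i] (init a))) (n a)
    (T a + c1 * T a ^ k1 + c2 * T a ^ k2)
    (by
      obtain ⟨t, ht, htle⟩ := hc' (n a) le_rfl
      rw [h2] at ht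
      refine ⟨t, ht, ?_⟩
      have := hsz a (n a) le_rfl
      change esize (g^[n a] (init a)) + t ≤ _
      omega)
    (by
      intro i hi
      obtain ⟨t, ht, htle⟩ := hc' i hi.le
      rw [h1 a i hi] at ht
      obtain ⟨u, hu, hule⟩ := h (g^[i] (init a))
      have hu' : u ≤ c2 * T a ^ k2 :=
        hule.trans (Nat.mul_le_mul_left _ (Nat.pow_le_pow_left (hsz a i hi.le) _))
      refine ⟨.nil, .nil, t, u, ht, ?_, ?_⟩
      · simp only [Function.iterate_succ_apply']
        exact hu
      · have := hsz a i hi.le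
        change esize (g^[i] (init a)) + t + u ≤ _
        omega)
  exact ⟨_, Run.comp hs ht, by omega⟩

/-- Left folds with polynomially bounded intermediate results. -/
theorem PolyTime.foldl {f : α → List β} {g : α → σ} {h : α × (β × σ) → σ} {T : α → ℕ}
    (hf : PolyTime f) (hg : PolyTime g) (hh : PolyTime h) (hT : PolyBd T)
    (hsz : ∀ a l1 l2, f a = l1 ++ l2 →
      esize (l1.foldl (fun s b => h (a, (b, s))) (g a)) ≤ T a) :
    PolyTime (fun a => (f a).foldl (fun s b => h (a, (b, s))) (g a)) := by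
  have hbody : PolyTime (fun x : α × (List β × σ) =>
      (x.2.1).casesOn (motive := fun _ => α × (List β × σ)) x
        (fun b l' => (x.1, (l', h (x.1, (b, x.2.2)))))) := by
    refine PolyTime.list_casesOn (l := fun x : α × (List β × σ) => x.2.1)
      (f := fun x => x)
      (g := fun y : (α × (List β × σ)) × (β × List β) =>
        (y.1.1, (y.2.2, h (y.1.1, (y.2.1, y.1.2.2))))) ?_ .id ?_
    · exact PolyTime.fst.comp .snd
    · have e1 : PolyTime (fun y : (α × (List β × σ)) × (β × List β) => y.1.1) :=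
        PolyTime.fst.comp .fst
      have e2 : PolyTime (fun y : (α × (List β × σ)) × (β × List β) => y.1.2.2) :=
        PolyTime.snd.comp (PolyTime.snd.comp .fst)
      have e3 : PolyTime (fun y : (α × (List β × σ)) × (β × List β) => y.2.1) :=
        PolyTime.fst.comp .snd
      have e4 : PolyTime (fun y : (α × (List β × σ)) × (β × List β) => y.2.2) :=
        PolyTime.snd.comp .snd
      exact e1.pair (e4.pair (hh.comp (e1.pair (e3.pair e2))))
  have hcond : PolyTime (fun x : α × (List β × σ) =>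
      (x.2.1).casesOn (motive := fun _ => Bool) false (fun _ _ => true)) := by
    refine PolyTime.list_casesOn (l := fun x : α × (List β × σ) => x.2.1)
      (f := fun _ => false) (g := fun _ => true) ?_ (.const _) (.const _)
    exact PolyTime.fst.comp .snd
  have hinit : PolyTime (fun a => (a, (f a, g a))) := PolyTime.id.pair (hf.pair hg)
  set body : α × (List β × σ) → α × (List β × σ) := fun x =>
      (x.2.1).casesOn (motive := fun _ => α × (List β × σ)) x
        (fun b l' => (x.1, (l', h (x.1, (b, x.2.2))))) with hbodydef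
  have hiter : ∀ a, ∀ i ≤ (f a).length, body^[i] (a, (f a, g a)) =
      (a, ((f a).drop i, ((f a).take i).foldl (fun s b => h (a, (b, s))) (g a))) := by
    intro a i
    induction i with
    | zero => intro _; simp
    | succ i ih =>
      intro hi
      rw [Function.iterate_succ_apply', ih (by omega), List.take_succ_eq_append_getElem (by omega),
        List.foldl_append, hbodydef]
      simp only
      rw [List.drop_eq_getElem_cons (show i < (f a).length by omega)]
      rfl
  have hlen : PolyBd (fun a => (f a).length) := hf.polyBd.of_le (fun a => (length_lt_esize _).le)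
  have hT' : PolyBd (fun a => esize a + (esize (f a) + T a + 1) + 1) :=
    (PolyBd.self.add ((hf.polyBd.add hT).add (.const 1))).add (.const 1)
  have key := PolyTime.while_loop (n := fun a => (f a).length) hinit hcond hbody hlen hT'
    (by
      intro a i hi
      rw [hiter a i hi.le]
      simp only
      rw [List.drop_eq_getElem_cons hi])
    (by
      intro a
      rw [hiter a _ le_rfl]
      simp)
    (by
      intro a i hi
      rw [hiter a i hi]
      have h1 := hsz a ((f a).take i) ((f a).drop i) (List.take_append_drop i (f a)).symm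
      have h2 : esize ((f a).drop i) ≤ esize (f a) := by
        have := esize_append ((f a).take i) ((f a).drop i)
        rw [List.take_append_drop] at this
        have h3 := esize_pos ((f a).take i)
        omega
      rw [esize_pair, esize_pair]
      omega)
  refine (PolyTime.snd.comp (PolyTime.snd.comp key)).of_eq ?_
  intro a
  rw [hiter a _ le_rfl]
  simp

end Pool.Agent.Lib.MP2ca8f5
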