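import Pool.Agent.Lib.MP_2ca8f5_lc.Geometry

set_option autoImplicit false

/-!
# Correctness of the algorithm, continued
-/

namespace Pool.Agent.Lib.MP2ca8f5

section

variable {I : Inst} (hI : Valid I)

theorem cU_none {j : Job} {k : ℕ} (h : (pt (pts I) k).2 = none) :
    cU (I, pts I) j k = (pt (pts I) k).1 := by
  simp only [cU, tU, h]

theorem cW_none {j : Job} {k : ℕ} (h : (pt (pts I) k).2 = none) :
    cW (I, pts I) j k = !(pt (pts I) k).1 := by
  simp only [cW, tW, h]

include hI

theorem cU_some {j : Job} (hj : j ∈ I.jobs) {k : ℕ} {t : Frac} (h : (pt (pts I) k).2 = some t) :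
    cU (I, pts I) j k = true ↔ j.r.toReal + j.p.toReal < t.toReal + (shiftLo I j).toReal := by
  have hp := hI.jobs_proper j hj
  have ht := pt_proper hI h
  have hs := proper_shiftLo hI hj
  simp only [cU, tU, h]
  rw [flt_iff (proper_fadd hp.1 hp.2.2.1) (proper_fadd ht hs), toReal_fadd hp.1 hp.2.2.1,
    toReal_fadd ht hs]

theorem cW_some {j : Job} (hj : j ∈ I.jobs) {k : ℕ} {t : Frac} (h : (pt (pts I) k).2 = some t) :
    cW (I, pts I) j k = true ↔
      t.toReal + (j.p.toReal + (shiftHi I j).toReal) < j.d.toReal := by
  have hp := hI.jobs_proper j hj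
  have ht := pt_proper hI h
  have hs := proper_shiftHi hI hj
  simp only [cW, tW, h]
  rw [flt_iff (proper_fadd ht (proper_fadd hp.2.2.1 hs)) hp.2.1,
    toReal_fadd ht (proper_fadd hp.2.2.1 hs), toReal_fadd hp.2.2.1 hs]

theorem cLen_some {j : Job} (hj : j ∈ I.jobs) {i k : ℕ} {t t' : Frac}
    (h : (pt (pts I) i).2 = some t) (h' : (pt (pts I) k).2 = some t') :
    cLen (I, pts I) j i k = true ↔ t.toReal + (j.p.toReal + (shiftHi I j).toReal) <
      t'.toReal + (shiftLo I j).toReal := by
  have hp := hI.jobs_proper j hj
  have ht := pt_proper hI h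
  have ht' := pt_proper hI h'
  have hs := proper_shiftHi hI hj
  have hs' := proper_shiftLo hI hj
  simp only [cLen, tLen, h, h']
  rw [flt_iff (proper_fadd ht (proper_fadd hp.2.2.1 hs)) (proper_fadd ht' hs'),
    toReal_fadd ht (proper_fadd hp.2.2.1 hs), toReal_fadd hp.2.2.1 hs, toReal_fadd ht' hs']

omit hI in
theorem cLen_none {j : Job} {i k : ℕ}
    (h : (pt (pts I) i).2 = none ∨ (pt (pts I) k).2 = none) :
    cLen (I, pts I) j i k = true := by
  simp only [cLen, tLen]
  rcases h with h | h
  · rw [h]
  · cases (pt (pts I) i).2 with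
    | none => rfl
    | some t => simp only [h]

theorem cU_mono {j : Job} (hj : j ∈ I.jobs) {k k' : ℕ} (hk : k ≤ k')
    (h : cU (I, pts I) j k = true) : cU (I, pts I) j k' = true := by
  cases ht : (pt (pts I) k).2 with
  | none =>
    rw [cU_none ht] at h
    rcases pt_cases I k with ⟨_, h1⟩ | ⟨_, _, _, h1⟩ | ⟨h2, h1⟩
    · rw [h1] at h; cases h
    · rw [h1] at ht; cases ht
    · have h3 := pt_last I k' (by omega)
      rw [cU_none (by rw [h3]), h3]
  | some t =>
    rw [cU_some hI hj ht] at h
    rcases pt_le_right hI hk ht with ⟨t', ht', _, hle⟩ | h1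
    · rw [cU_some hI hj ht']
      linarith
    · rw [cU_none (by rw [h1]), h1]

theorem cW_mono {j : Job} (hj : j ∈ I.jobs) {i i' : ℕ} (hi : i' ≤ i)
    (h : cW (I, pts I) j i = true) : cW (I, pts I) j i' = true := by
  cases ht : (pt (pts I) i).2 with
  | none =>
    rw [cW_none ht] at h
    rcases pt_cases I i with ⟨h0, h1⟩ | ⟨_, _, _, h1⟩ | ⟨h2, h1⟩
    · have : i' = 0 := by omega
      subst this
      rw [cW_none (by rw [pt_zero]), pt_zero]
      rfl
    · rw [h1] at ht; cases ht
    · rw [h1] at h; cases h
  | some t =>
    rw [cW_some hI hj ht] at h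
    rcases pt_le_left hI hi ht with ⟨t', ht', _, hle⟩ | h1
    · rw [cW_some hI hj ht']
      linarith
    · rw [cW_none (by rw [h1]), h1]
      rfl

/-- The length of the forbidden interval of a job. -/
noncomputable def jobLen (I : Inst) (j : Job) : ℝ :=
  j.p.toReal + (shiftHi I j).toReal - (shiftLo I j).toReal

theorem cLen_mono {j j' : Job} (hj : j ∈ I.jobs) (hj' : j' ∈ I.jobs)
    (hle : jobLen I j ≤ jobLen I j') {i k : ℕ} (h : cLen (I, pts I) j' i k = true) :
    cLen (I, pts I) j i k = true := by
  unfold jobLen at hle
  cases ht : (pt (pts I) i).2 with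
  | none => exact cLen_none (Or.inl ht)
  | some t =>
    cases ht' : (pt (pts I) k).2 with
    | none => exact cLen_none (Or.inr ht')
    | some t' =>
      rw [cLen_some hI hj' ht ht'] at h
      rw [cLen_some hI hj ht ht']
      linarith

/-- The table entry for the whole line is optimal. -/
theorem final_isOpt :
    IsOpt I.jobs (cU (I, pts I)) (cW (I, pts I)) (cLen (I, pts I)) 0 (I.starts.length + 1)
      (tget (finalTab (I, pts I)) 0 (I.starts.length + 1)) := by
  have h1 : finalTab (I, pts I) = iterTab (I, pts I) (pts I).length := by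
    unfold finalTab iterTab
    exact foldl_eq_iterate _ _ _
  have hlen := length_pts I
  rw [h1, tget_iterTab (I, pts I) _ _ _ (by simp only; omega) (by simp only; omega)]
  have key := table_isOpt (jobs := I.jobs) (U := cU (I, pts I)) (W := cW (I, pts I))
    (Len := cLen (I, pts I)) (pts I).length
    (fun j hj k k' hk h => cU_mono hI hj hk h)
    (fun j hj i i' hi h => cW_mono hI hj hi h) (jobLen I)
    (fun j hj j' hj' hle i k _ h => cLen_mono hI hj hj' hle h) (pts I).length 0
    (I.starts.length + 1) (by omega) (by omega) (by omega)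
  exact key

/-- The point with index `v` lies to the left of the forbidden interval of `j` at `x`. -/
def Lft (I : Inst) (j : Job) (x : ℝ) (v : ℕ) : Prop :=
  (∀ t, (pt (pts I) v).2 = some t → t.toReal + (shiftHi I j).toReal < x) ∧
  ((pt (pts I) v).2 = none → (pt (pts I) v).1 = false)

/-- The point with index `v` lies to the right of the forbidden interval of `j` at `x`. -/
def Rgt (I : Inst) (j : Job) (x : ℝ) (v : ℕ) : Prop :=
  (∀ t, (pt (pts I) v).2 = some t → x + j.p.toReal < t.toReal + (shiftLo I j).toReal) ∧
  ((pt (pts I) v).2 = none → (pt (pts I) v).1 = true)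

theorem not_Lft_and_Rgt {j : Job} (hj : j ∈ I.jobs) {x : ℝ} {v : ℕ} (h : Lft I j x v)
    (h' : Rgt I j x v) : False := by
  cases ht : (pt (pts I) v).2 with
  | none =>
    have h1 := h.2 ht
    rw [h'.2 ht] at h1
    cases h1
  | some t =>
    have h1 := h.1 t ht
    have h2 := h'.1 t ht
    have h3 := shiftLo_le_shiftHi hI hj
    have h4 := toReal_nonneg j.p
    linarith

theorem serves_of {j : Job} (hj : j ∈ I.jobs) {x : ℝ} (hx : j.r.toReal ≤ x)
    (hx' : x ≤ j.d.toReal - j.p.toReal) {i k : ℕ} (h : Lft I j x i) (h' : Rgt I j x k) :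
    serves (cU (I, pts I)) (cW (I, pts I)) (cLen (I, pts I)) j (i, k) = true := by
  simp only [serves, Bool.and_eq_true]
  refine ⟨?_, ?_, ?_⟩
  · cases ht : (pt (pts I) k).2 with
    | none => rw [cU_none ht]; exact h'.2 ht
    | some t =>
      rw [cU_some hI hj ht]
      have := h'.1 t ht
      linarith
  · cases ht : (pt (pts I) i).2 with
    | none => rw [cW_none ht, h.2 ht]; rfl
    | some t =>
      rw [cW_some hI hj ht]
      have := h.1 t ht
      linarith
  · cases ht : (pt (pts I) i).2 with
    | none => exact cLen_none (Or.inl ht)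
    | some t =>
      cases ht' : (pt (pts I) k).2 with
      | none => exact cLen_none (Or.inr ht')
      | some t' =>
        rw [cLen_some hI hj ht ht']
        have h1 := h.1 t ht
        have h2 := h'.1 t' ht'
        linarith

theorem exists_gap {j : Job} (hj : j ∈ I.jobs) {x : ℝ} {a b : ℕ} {l : List (ℕ × ℕ)}
    (hl : Path a b l) (ha : Lft I j x a) (hb : Rgt I j x b)
    (hn : ∀ g ∈ l, Lft I j x g.2 ∨ Rgt I j x g.2) :
    ∃ g ∈ l, Lft I j x g.1 ∧ Rgt I j x g.2 := by
  induction hl with
  | nil a => exact (not_Lft_and_Rgt hI hj ha hb).elim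
  | @cons a k b l h1 h2 ih =>
    rcases hn (a, k) List.mem_cons_self with h | h
    · obtain ⟨g, hg, hg'⟩ := ih h hb (fun g hg => hn g (List.mem_cons_of_mem _ hg))
      exact ⟨g, List.mem_cons_of_mem _ hg, hg'⟩
    · exact ⟨(a, k), List.mem_cons_self, ha, h⟩

omit hI in
/-- Chains through kept points. -/
theorem exists_chain (K : ℕ → Prop) [DecidablePred K] (n a : ℕ) (hb : K (a + n)) :
    ∃ l, Path a (a + n) l ∧ (∀ g ∈ l, K g.2) ∧
      l.length = ((Finset.Ioc a (a + n)).filter K).card := by
  induction n generalizing a with
  | zero => exact ⟨[], Path.nil _, by simp, by simp⟩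
  | succ n ih =>
    have hb' : K (a + 1 + n) := by rwa [show a + 1 + n = a + (n + 1) by omega]
    obtain ⟨l, h1, h2, h3⟩ := ih (a + 1) hb'
    rw [show a + 1 + n = a + (n + 1) by omega] at h1 h3
    have hIoc : Finset.Ioc a (a + (n + 1)) = insert (a + 1) (Finset.Ioc (a + 1) (a + (n + 1))) := by
      ext x
      simp only [Finset.mem_Ioc, Finset.mem_insert]
      omega
    by_cases hK : K (a + 1)
    · refine ⟨(a, a + 1) :: l, Path.cons (by omega) h1, ?_, ?_⟩
      · intro g hg
        rcases List.mem_cons.1 hg with h | h
        · rw [h]; exact hK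
        · exact h2 g h
      · rw [hIoc, Finset.filter_insert, if_pos hK, Finset.card_insert_of_notMem (by simp),
          List.length_cons, h3]
    · cases n with
      | zero => exact absurd hb hK
      | succ n =>
        cases h1 with
        | @cons _ k _ l' h4 h5 =>
          refine ⟨(a, k) :: l', Path.cons (by omega) h5, ?_, ?_⟩
          · intro g hg
            rcases List.mem_cons.1 hg with h | h
            · rw [h]; exact h2 (a + 1, k) List.mem_cons_self
            · exact h2 g (List.mem_cons_of_mem _ h)
          · rw [hIoc, Finset.filter_insert, if_neg hK, ← h3]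
            simp

omit hI in
theorem length_le_of_path (K : ℕ → Prop) [DecidablePred K] {a b : ℕ} {l : List (ℕ × ℕ)}
    (hl : Path a b l) (hK : ∀ g ∈ l, K g.2) : l.length ≤ ((Finset.Ioc a b).filter K).card := by
  induction hl with
  | nil a => simp
  | @cons a k b l h1 h2 ih =>
    have h3 := ih (fun g hg => hK g (List.mem_cons_of_mem _ hg))
    have h4 : K k := hK (a, k) List.mem_cons_self
    have h5 : insert k ((Finset.Ioc k b).filter K) ⊆ (Finset.Ioc a b).filter K := by
      intro x hx
      have hle := h2.le
      rw [Finset.mem_insert, Finset.mem_filter, Finset.mem_Ioc] at hx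
      rw [Finset.mem_filter, Finset.mem_Ioc]
      rcases hx with rfl | ⟨⟨h6, h7⟩, h8⟩
      · exact ⟨⟨h1, hle⟩, h4⟩
      · exact ⟨⟨by omega, h7⟩, h8⟩
    have h6 := Finset.card_le_card h5
    rw [Finset.card_insert_of_notMem (by simp)] at h6
    rw [List.length_cons]
    omega

omit hI in
theorem exists_index_set {α : Type} (p : α → Prop) [DecidablePred p] (l : List α) :
    ∃ S : Finset ℕ, S.card = l.countP (fun x => decide (p x)) ∧
      ∀ i, i ∈ S ↔ ∃ x, l[i]? = some x ∧ p x := by
  induction l using List.reverseRecOn with
  | nil => exact ⟨∅, by simp, by simp⟩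
  | append_singleton l x ih =>
    obtain ⟨S, hS, hS'⟩ := ih
    have hlt : ∀ i ∈ S, i < l.length := by
      intro i hi
      obtain ⟨y, hy, _⟩ := (hS' i).1 hi
      exact (List.getElem?_eq_some_iff.1 hy).1
    by_cases hx : p x
    · refine ⟨insert l.length S, ?_, fun i => ?_⟩
      · rw [Finset.card_insert_of_notMem (fun h => by have := hlt _ h; omega), hS,
          List.countP_append]
        simp [hx]
      · rw [Finset.mem_insert, hS']
        rcases Nat.lt_trichotomy i l.length with h | h | h
        · rw [List.getElem?_append_left h]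
          constructor
          · rintro (h' | h')
            · omega
            · exact h'
          · exact Or.inr
        · subst h
          simp [hx]
        · rw [List.getElem?_eq_none (by omega), List.getElem?_eq_none (by simp; omega)]
          simp
          omega
    · refine ⟨S, ?_, fun i => ?_⟩
      · rw [hS, List.countP_append]
        simp [hx]
      · rw [hS']
        rcases Nat.lt_trichotomy i l.length with h | h | h
        · rw [List.getElem?_append_left h]
        · subst h
          simp [hx]
        · rw [List.getElem?_eq_none (by omega), List.getElem?_eq_none (by simp; omega)]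

/-- The point with index `v` is not cancelled. -/
def Kept (I : Inst) (s : List ℝ) (v : ℕ) : Prop :=
  ∀ t, (pt (pts I) v).2 = some t → ¬ Cancelled I s t.toReal

omit hI in
open Classical in
theorem card_kept (s : List ℝ) :
    ((Finset.Ioc 0 (I.starts.length + 1)).filter (Kept I s)).card + numCancelled I s =
      I.starts.length + 1 := by
  have h1 : I.starts.countP (fun t => decide (¬ Cancelled I s t.toReal)) + numCancelled I s =
      I.starts.length := by
    unfold numCancelled
    have := List.length_eq_countP_add_countP
      (fun t : Frac => decide (Cancelled I s t.toReal)) (l := I.starts)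
    rw [this]
    simp only [decide_not, Bool.decide_eq_true]
    omega
  obtain ⟨S, hS, hS'⟩ := exists_index_set (fun t : Frac => ¬ Cancelled I s t.toReal) I.starts
  rw [← hS] at h1
  have h2 : (Finset.Ioc 0 (I.starts.length + 1)).filter (Kept I s) =
      insert (I.starts.length + 1) (S.map ⟨Nat.succ, Nat.succ_injective⟩) := by
    ext v
    simp only [Finset.mem_filter, Finset.mem_Ioc, Finset.mem_insert, Finset.mem_map,
      hS', Function.Embedding.coeFn_mk]
    constructor
    · rintro ⟨⟨h3, h4⟩, h5⟩
      rcases Nat.eq_or_lt_of_le h4 with h6 | h6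
      · exact Or.inl h6
      · right
        refine ⟨v - 1, ⟨I.starts[v - 1]'(by omega), ?_, ?_⟩, by omega⟩
        · exact List.getElem?_eq_getElem _
        · refine h5 _ ?_
          have := pt_succ I (v - 1) (by omega)
          rw [show v - 1 + 1 = v by omega] at this
          rw [this]
    · rintro (rfl | ⟨i, ⟨x, h4, h5⟩, rfl⟩)
      · refine ⟨⟨by omega, le_rfl⟩, ?_⟩
        intro t ht
        rw [pt_last I _ (by omega)] at ht
        cases ht
      · have h3 : i < I.starts.length := (List.getElem?_eq_some_iff.1 h4).1
        refine ⟨⟨by omega, by omega⟩, ?_⟩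
        intro t ht
        rw [pt_succ I i h3] at ht
        rw [List.getElem?_eq_getElem h3] at h4
        simp only [Option.some.injEq] at ht h4
        rw [← ht, h4]
        exact h5
  rw [h2, Finset.card_insert_of_notMem, Finset.card_map]
  · omega
  · simp only [Finset.mem_map, Function.Embedding.coeFn_mk, not_exists, not_and]
    intro i h3 h4
    obtain ⟨x, h5, _⟩ := (hS' i).1 h3
    have h6 : i < I.starts.length := (List.getElem?_eq_some_iff.1 h5).1
    omega

/-- Every schedule gives a feasible chain. -/
theorem feas_of_schedule {s : List ℝ} (hs : IsSchedule I s) :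
    ∃ l, Feas I.jobs (cU (I, pts I)) (cW (I, pts I)) (cLen (I, pts I)) 0 (I.starts.length + 1) l ∧
      l.length + numCancelled I s = I.starts.length + 1 := by
  classical
  obtain ⟨l, h1, h2, h3⟩ := exists_chain (Kept I s) (I.starts.length + 1) 0 (by
    intro t ht
    rw [zero_add, pt_last I _ (by omega)] at ht
    cases ht)
  rw [zero_add] at h1 h3
  refine ⟨l, ⟨h1, fun j hj _ => ?_⟩, ?_⟩
  · -- the start time of the job
    obtain ⟨x, hx, hmem⟩ : ∃ x, (j.r.toReal ≤ x ∧ x ≤ j.d.toReal - j.p.toReal) ∧
        (j, x) ∈ I.jobs.zip s := by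
      obtain ⟨n, hn, rfl⟩ := List.getElem_of_mem hj
      have hlen := hs.length_eq
      refine ⟨s[n]'(by omega), ?_, ?_⟩
      · exact (List.forall₂_iff_get.1 hs).2 n hn (by omega)
      · rw [List.mem_iff_getElem]
        exact ⟨n, by simp; omega, by simp⟩
    have hnode : ∀ v, Kept I s v → Lft I j x v ∨ Rgt I j x v := by
      intro v hv
      cases ht : (pt (pts I) v).2 with
      | none =>
        cases hb : (pt (pts I) v).1 with
        | false =>
          left
          refine ⟨fun t ht' => ?_, fun _ => hb⟩
          rw [ht] at ht'; cases ht'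
        | true =>
          right
          refine ⟨fun t ht' => ?_, fun _ => hb⟩
          rw [ht] at ht'; cases ht'
      | some t =>
        have hnot := hv t ht
        have hnm : ¬ Meets I t.toReal j x := fun hm => hnot ⟨(j, x), hmem, hm⟩
        rw [meets_iff hI hj, not_and_or, not_le, not_le] at hnm
        rcases hnm with h | h
        · left
          refine ⟨fun t' ht' => ?_, fun hn => ?_⟩
          · rw [ht] at ht'; cases ht'; exact h
          · rw [ht] at hn; cases hn
        · right
          refine ⟨fun t' ht' => ?_, fun hn => ?_⟩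
          · rw [ht] at ht'; cases ht'; exact h
          · rw [ht] at hn; cases hn
    obtain ⟨g, hg, hg1, hg2⟩ := exists_gap hI hj h1
      (x := x) (by
        refine ⟨fun t ht => ?_, fun _ => by rw [pt_zero]⟩
        rw [pt_zero] at ht; cases ht)
      (by
        refine ⟨fun t ht => ?_, fun _ => by rw [pt_last I _ (by omega)]⟩
        rw [pt_last I _ (by omega)] at ht; cases ht)
      (fun g hg => hnode _ (h2 g hg))
    exact ⟨g, hg, serves_of hI hj hx.1 hx.2 hg1 hg2⟩
  · rw [h3]
    exact card_kept s

/-- The start time computed from a serving gap. -/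
theorem startTime_spec {j : Job} (hj : j ∈ I.jobs) {C : List (ℕ × ℕ)} {i k : ℕ}
    (hC : C.find? (fun g => serves (cU (I, pts I)) (cW (I, pts I)) (cLen (I, pts I)) j g) =
      some (i, k)) :
    (startTime (I, pts I) C j).Proper ∧
    j.r.toReal ≤ (startTime (I, pts I) C j).toReal ∧
    (startTime (I, pts I) C j).toReal ≤ j.d.toReal - j.p.toReal ∧
    Lft I j (startTime (I, pts I) C j).toReal i ∧ Rgt I j (startTime (I, pts I) C j).toReal k := by
  have hs := List.find?_some hC
  simp only [serves, Bool.and_eq_true] at hs
  obtain ⟨hsU, hsW, hsL⟩ := hs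
  obtain ⟨pr, pd, pp, _, _⟩ := hI.jobs_proper j hj
  have pHi := proper_shiftHi hI hj
  have pLo := proper_shiftLo hI hj
  have hwin := hI.window j hj
  have hlohi := shiftLo_le_shiftHi hI hj
  have hp0 := toReal_nonneg j.p
  have hst : startTime (I, pts I) C j = fhalf (fadd
      ((pt (pts I) i).2.casesOn (motive := fun _ => Frac) j.r
        (fun t => fmax j.r (fadd t (shiftHi I j))))
      (fsub ((pt (pts I) k).2.casesOn (motive := fun _ => Frac) j.d
        (fun t => fmin j.d (fadd t (shiftLo I j)))) j.p)) := by
    unfold startTime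
    rw [hC]
    rfl
  rw [hst]
  cases hti : (pt (pts I) i).2 with
  | none =>
    have hfi : (pt (pts I) i).1 = false := by
      rw [cW_none hti] at hsW
      simpa using hsW
    cases htk : (pt (pts I) k).2 with
    | none =>
      have hfk : (pt (pts I) k).1 = true := by rw [cU_none htk] at hsU; exact hsU
      simp only
      have e1 : (fsub j.d j.p).toReal = j.d.toReal - j.p.toReal :=
        toReal_fsub pd pp (by have := toReal_nonneg j.r; linarith)
      have p1 := proper_fsub pd pp
      have p2 := proper_fadd pr p1
      rw [toReal_fhalf p2, toReal_fadd pr p1, e1]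
      refine ⟨proper_fhalf p2, by linarith, by linarith, ⟨?_, fun _ => hfi⟩, ⟨?_, fun _ => hfk⟩⟩
      · intro t ht; rw [hti] at ht; cases ht
      · intro t ht; rw [htk] at ht; cases ht
    | some t =>
      have pt' := pt_proper hI htk
      rw [cU_some hI hj htk] at hsU
      simp only
      have p0 := proper_fadd pt' pLo
      have pm := proper_fmin pd p0
      have em : (fmin j.d (fadd t (shiftLo I j))).toReal =
          min j.d.toReal (t.toReal + (shiftLo I j).toReal) := by
        rw [toReal_fmin pd p0, toReal_fadd pt' pLo]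
      have hmin : j.r.toReal + j.p.toReal ≤ min j.d.toReal (t.toReal + (shiftLo I j).toReal) :=
        le_min (by linarith) (by linarith)
      have hmin1 := min_le_left j.d.toReal (t.toReal + (shiftLo I j).toReal)
      have hmin2 := min_le_right j.d.toReal (t.toReal + (shiftLo I j).toReal)
      have e1 : (fsub (fmin j.d (fadd t (shiftLo I j))) j.p).toReal =
          min j.d.toReal (t.toReal + (shiftLo I j).toReal) - j.p.toReal := by
        rw [toReal_fsub pm pp (by rw [em]; have := toReal_nonneg j.r; linarith), em]
      have p1 := proper_fsub pm pp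
      have p2 := proper_fadd pr p1
      rw [toReal_fhalf p2, toReal_fadd pr p1, e1]
      refine ⟨proper_fhalf p2, by linarith, by linarith, ⟨?_, fun _ => hfi⟩, ⟨?_, fun h => ?_⟩⟩
      · intro t ht; rw [hti] at ht; cases ht
      · intro t' ht'
        rw [htk] at ht'
        cases ht'
        linarith
      · rw [htk] at h; cases h
  | some t =>
    have pt' := pt_proper hI hti
    rw [cW_some hI hj hti] at hsW
    have p0 := proper_fadd pt' pHi
    have pM := proper_fmax pr p0
    have eM : (fmax j.r (fadd t (shiftHi I j))).toReal =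
        max j.r.toReal (t.toReal + (shiftHi I j).toReal) := by
      rw [toReal_fmax pr p0, toReal_fadd pt' pHi]
    have hmax1 := le_max_left j.r.toReal (t.toReal + (shiftHi I j).toReal)
    have hmax2 := le_max_right j.r.toReal (t.toReal + (shiftHi I j).toReal)
    cases htk : (pt (pts I) k).2 with
    | none =>
      have hfk : (pt (pts I) k).1 = true := by rw [cU_none htk] at hsU; exact hsU
      simp only
      have e1 : (fsub j.d j.p).toReal = j.d.toReal - j.p.toReal :=
        toReal_fsub pd pp (by have := toReal_nonneg j.r; linarith)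
      have p1 := proper_fsub pd pp
      have p2 := proper_fadd pM p1
      have hmax : max j.r.toReal (t.toReal + (shiftHi I j).toReal) ≤ j.d.toReal - j.p.toReal :=
        max_le (by linarith) (by linarith)
      rw [toReal_fhalf p2, toReal_fadd pM p1, e1, eM]
      refine ⟨proper_fhalf p2, by linarith, by linarith, ⟨?_, fun h => ?_⟩, ⟨?_, fun _ => hfk⟩⟩
      · intro t' ht'
        rw [hti] at ht'
        cases ht'
        linarith
      · rw [hti] at h; cases h
      · intro t ht; rw [htk] at ht; cases ht
    | some t' =>
      have pt'' := pt_proper hI htk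
      rw [cU_some hI hj htk] at hsU
      rw [cLen_some hI hj hti htk] at hsL
      simp only
      have p0' := proper_fadd pt'' pLo
      have pm := proper_fmin pd p0'
      have em : (fmin j.d (fadd t' (shiftLo I j))).toReal =
          min j.d.toReal (t'.toReal + (shiftLo I j).toReal) := by
        rw [toReal_fmin pd p0', toReal_fadd pt'' pLo]
      have hmin : j.r.toReal + j.p.toReal ≤ min j.d.toReal (t'.toReal + (shiftLo I j).toReal) :=
        le_min (by linarith) (by linarith)
      have hmin' : t.toReal + (shiftHi I j).toReal + j.p.toReal <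
          min j.d.toReal (t'.toReal + (shiftLo I j).toReal) :=
        lt_min (by linarith) (by linarith)
      have hmin1 := min_le_left j.d.toReal (t'.toReal + (shiftLo I j).toReal)
      have hmin2 := min_le_right j.d.toReal (t'.toReal + (shiftLo I j).toReal)
      have hmax : max j.r.toReal (t.toReal + (shiftHi I j).toReal) ≤
          min j.d.toReal (t'.toReal + (shiftLo I j).toReal) - j.p.toReal :=
        max_le (by linarith) (by linarith)
      have hmaxlt : max j.r.toReal (t.toReal + (shiftHi I j).toReal) <
          t'.toReal + (shiftLo I j).toReal - j.p.toReal :=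
        max_lt (by linarith) (by linarith)
      have e1 : (fsub (fmin j.d (fadd t' (shiftLo I j))) j.p).toReal =
          min j.d.toReal (t'.toReal + (shiftLo I j).toReal) - j.p.toReal := by
        rw [toReal_fsub pm pp (by rw [em]; have := toReal_nonneg j.r; linarith), em]
      have p1 := proper_fsub pm pp
      have p2 := proper_fadd pM p1
      rw [toReal_fhalf p2, toReal_fadd pM p1, e1, eM]
      refine ⟨proper_fhalf p2, by linarith, by linarith, ⟨?_, fun h => ?_⟩, ⟨?_, fun h => ?_⟩⟩
      · intro u hu
        rw [hti] at hu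
        cases hu
        linarith
      · rw [hti] at h; cases h
      · intro u hu
        rw [htk] at hu
        cases hu
        linarith
      · rw [htk] at h; cases h

theorem Lft.mono {j : Job} {x : ℝ} {v i : ℕ} (h : Lft I j x i) (hv : v ≤ i) : Lft I j x v := by
  cases ht : (pt (pts I) i).2 with
  | none =>
    have h1 := h.2 ht
    rcases pt_cases I i with ⟨h0, _⟩ | ⟨_, _, _, h2⟩ | ⟨_, h2⟩
    · have : v = 0 := by omega
      subst this
      refine ⟨fun t ht => ?_, fun _ => by rw [pt_zero]⟩
      rw [pt_zero] at ht; cases ht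
    · rw [h2] at ht; cases ht
    · rw [h2] at h1; cases h1
  | some t =>
    have h1 := h.1 t ht
    rcases pt_le_left hI hv ht with ⟨t', ht', _, hle⟩ | h2
    · refine ⟨fun u hu => ?_, fun hn => ?_⟩
      · rw [ht'] at hu; cases hu; linarith
      · rw [ht'] at hn; cases hn
    · refine ⟨fun u hu => ?_, fun _ => by rw [h2]⟩
      rw [h2] at hu; cases hu

theorem Rgt.mono {j : Job} {x : ℝ} {v k : ℕ} (h : Rgt I j x k) (hv : k ≤ v) : Rgt I j x v := by
  cases ht : (pt (pts I) k).2 with
  | none =>
    have h1 := h.2 ht
    rcases pt_cases I k with ⟨_, h2⟩ | ⟨_, _, _, h2⟩ | ⟨h0, h2⟩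
    · rw [h2] at h1; cases h1
    · rw [h2] at ht; cases ht
    · refine ⟨fun t ht => ?_, fun _ => by rw [pt_last I v (by omega)]⟩
      rw [pt_last I v (by omega)] at ht; cases ht
  | some t =>
    have h1 := h.1 t ht
    rcases pt_le_right hI hv ht with ⟨t', ht', _, hle⟩ | h2
    · refine ⟨fun u hu => ?_, fun hn => ?_⟩
      · rw [ht'] at hu; cases hu; linarith
      · rw [ht'] at hn; cases hn
    · refine ⟨fun u hu => ?_, fun _ => by rw [h2]⟩
      rw [h2] at hu; cases hu

/-- Correctness of the algorithm. -/
theorem algo_correct :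
    (∀ q ∈ algo I, q.Proper) ∧ IsSchedule I ((algo I).map Frac.toReal) ∧
      ∀ s, IsSchedule I s → numCancelled I ((algo I).map Frac.toReal) ≤ numCancelled I s := by
  classical
  have hopt := final_isOpt hI
  -- there is a feasible chain, since there is a schedule
  have hsched0 : IsSchedule I (I.jobs.map (fun j => j.r.toReal)) := by
    unfold IsSchedule
    rw [List.forall₂_map_right_iff, List.forall₂_same]
    intro j hj
    have := hI.window j hj
    exact ⟨le_rfl, by linarith⟩
  obtain ⟨l0, hl0, _⟩ := feas_of_schedule hI hsched0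
  obtain ⟨C, hC, hfeas, hmax⟩ : ∃ C, bestChain I = C ∧
      Feas I.jobs (cU (I, pts I)) (cW (I, pts I)) (cLen (I, pts I)) 0 (I.starts.length + 1) C ∧
      ∀ l', Feas I.jobs (cU (I, pts I)) (cW (I, pts I)) (cLen (I, pts I)) 0
        (I.starts.length + 1) l' → l'.length ≤ C.length := by
    unfold bestChain
    cases ht : tget (finalTab (I, pts I)) 0 (I.starts.length + 1) with
    | none => rw [ht] at hopt; exact absurd hl0 (hopt l0)
    | some C => rw [ht] at hopt; exact ⟨C, rfl, hopt.1, hopt.2⟩
  -- every job is served
  have hserved : ∀ j ∈ I.jobs, ∃ g ∈ C, C.find? (fun g => serves (cU (I, pts I)) (cW (I, pts I))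
      (cLen (I, pts I)) j g) = some g := by
    intro j hj
    obtain ⟨g, hg, hs⟩ := hfeas.2 j hj (by
      simp only [inJobs, Bool.and_eq_true, Bool.not_eq_true']
      constructor
      · rw [cU_none (by rw [pt_zero]), pt_zero]
      · rw [cW_none (by rw [pt_last I _ (by omega)]), pt_last I _ (by omega)]
        rfl)
    cases hf : C.find? (fun g => serves (cU (I, pts I)) (cW (I, pts I))
      (cLen (I, pts I)) j g) with
    | none => exact absurd hs (List.find?_eq_none.1 hf g hg)
    | some g' => exact ⟨g', List.mem_of_find?_eq_some hf, rfl⟩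
  have hspec : ∀ j ∈ I.jobs, ∃ i k, (i, k) ∈ C ∧ (startTime (I, pts I) C j).Proper ∧
      j.r.toReal ≤ (startTime (I, pts I) C j).toReal ∧
      (startTime (I, pts I) C j).toReal ≤ j.d.toReal - j.p.toReal ∧
      Lft I j (startTime (I, pts I) C j).toReal i ∧
      Rgt I j (startTime (I, pts I) C j).toReal k := by
    intro j hj
    obtain ⟨⟨i, k⟩, hg, hf⟩ := hserved j hj
    exact ⟨i, k, hg, startTime_spec hI hj hf⟩
  have hsched : IsSchedule I ((algo I).map Frac.toReal) := by
    unfold IsSchedule algo
    rw [hC, List.map_map, List.forall₂_map_right_iff, List.forall₂_same]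
    intro j hj
    obtain ⟨i, k, _, _, h1, h2, _⟩ := hspec j hj
    exact ⟨h1, h2⟩
  refine ⟨?_, hsched, ?_⟩
  · intro q hq
    unfold algo at hq
    rw [hC, List.mem_map] at hq
    obtain ⟨j, hj, rfl⟩ := hq
    obtain ⟨_, _, _, h, _⟩ := hspec j hj
    exact h
  · intro s hs
    obtain ⟨l', hl', hcount⟩ := feas_of_schedule hI hs
    have h1 := hmax l' hl'
    have h2 : ∀ g ∈ C, Kept I ((algo I).map Frac.toReal) g.2 := by
      intro g hg t ht
      rintro ⟨⟨j, x⟩, hmem, hmeets⟩
      simp only at hmeets
      have hmem' : j ∈ I.jobs ∧ x = (startTime (I, pts I) C j).toReal := by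
        unfold algo at hmem
        rw [hC, List.map_map, List.zip_map_right, List.mem_map] at hmem
        obtain ⟨⟨j1, j2⟩, hz, he⟩ := hmem
        have hz' := List.mem_iff_getElem.1 hz
        obtain ⟨n, hn, hn'⟩ := hz'
        simp only [List.getElem_zip, Prod.mk.injEq] at hn'
        simp only [Prod.map, Prod.mk.injEq, Function.comp] at he
        obtain ⟨rfl, rfl⟩ := he
        obtain ⟨e1, e2⟩ := hn'
        have e3 : j2 = j1 := by rw [← e1, ← e2]
        subst e3
        exact ⟨(List.of_mem_zip hz).1, rfl⟩
      obtain ⟨hj, rfl⟩ := hmem'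
      obtain ⟨i, k, hik, _, _, _, hL, hR⟩ := hspec j hj
      rw [meets_iff hI hj] at hmeets
      -- the node lies on one side of the gap
      obtain ⟨x', y', hCeq, hp1, hp2, _⟩ := hfeas.1.split hik
      have hside : g.2 ≤ i ∨ k ≤ g.2 := by
        rw [hCeq, List.mem_append] at hg
        rcases hg with hg | hg
        · exact Or.inl (hp1.mem_le hg).2.2
        · rcases List.mem_cons.1 hg with hg | hg
          · right; rw [hg]
          · have := hp2.mem_le hg
            right
            simp only at this
            omega
      rcases hside with h | h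
      · have := (Lft.mono hI hL h).1 t ht
        linarith [hmeets.1]
      · have := (Rgt.mono hI hR h).1 t ht
        linarith [hmeets.2]
    have h3 := length_le_of_path (Kept I ((algo I).map Frac.toReal)) hfeas.1 h2
    have h4 := card_kept (I := I) ((algo I).map Frac.toReal)
    have h5 : ((Finset.Ioc 0 (I.starts.length + 1)).filter
        (Kept I ((algo I).map Frac.toReal))).card + numCancelled I ((algo I).map Frac.toReal) =
        I.starts.length + 1 := by
      convert h4
    omega

end

end Pool.Agent.Lib.MP2ca8f5
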