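import Pool.Agent.Lib.MP_2ca8f5_lc.Algo

set_option autoImplicit false

/-!
# Correctness of the algorithm
-/

namespace Pool.Agent.Lib.MP2ca8f5

/-! ### Fractions -/

theorem proper_fadd {p q : Frac} (hp : p.Proper) (hq : q.Proper) : (fadd p q).Proper := by
  unfold Frac.Proper fadd at *
  rw [val_mulB]
  positivity

theorem toReal_fadd {p q : Frac} (hp : p.Proper) (hq : q.Proper) :
    (fadd p q).toReal = p.toReal + q.toReal := by
  unfold Frac.Proper Frac.toReal fadd at *
  have h1 : (val p.2 : ℝ) ≠ 0 := by positivity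
  have h2 : (val q.2 : ℝ) ≠ 0 := by positivity
  rw [val_addB, val_mulB, val_mulB, val_mulB]
  push_cast
  field_simp

theorem proper_fmul {p q : Frac} (hp : p.Proper) (hq : q.Proper) : (fmul p q).Proper := by
  unfold Frac.Proper fmul at *
  rw [val_mulB]
  positivity

theorem toReal_fmul {p q : Frac} (hp : p.Proper) (hq : q.Proper) :
    (fmul p q).toReal = p.toReal * q.toReal := by
  unfold Frac.Proper Frac.toReal fmul at *
  have h1 : (val p.2 : ℝ) ≠ 0 := by positivity
  have h2 : (val q.2 : ℝ) ≠ 0 := by positivity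
  rw [val_mulB, val_mulB]
  push_cast
  field_simp

theorem num_pos {q : Frac} (hq : 0 < q.toReal) : 0 < val q.1 := by
  unfold Frac.toReal at hq
  rcases Nat.eq_zero_or_pos (val q.1) with h | h
  · rw [h] at hq
    simp at hq
  · exact h

theorem proper_fdiv {p q : Frac} (hp : p.Proper) (hq0 : 0 < q.toReal) : (fdiv p q).Proper := by
  have := num_pos hq0
  unfold Frac.Proper fdiv at *
  rw [val_mulB]
  positivity

theorem toReal_fdiv {p q : Frac} (hp : p.Proper) (hq : q.Proper) (hq0 : 0 < q.toReal) :
    (fdiv p q).toReal = p.toReal / q.toReal := by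
  have h0 := num_pos hq0
  unfold Frac.Proper Frac.toReal fdiv at *
  have h1 : (val p.2 : ℝ) ≠ 0 := by positivity
  have h2 : (val q.2 : ℝ) ≠ 0 := by positivity
  have h3 : (val q.1 : ℝ) ≠ 0 := by positivity
  rw [val_mulB, val_mulB]
  push_cast
  field_simp

theorem flt_iff {p q : Frac} (hp : p.Proper) (hq : q.Proper) :
    flt p q = true ↔ p.toReal < q.toReal := by
  unfold Frac.Proper Frac.toReal flt at *
  have h1 : (0 : ℝ) < val p.2 := by positivity
  have h2 : (0 : ℝ) < val q.2 := by positivity
  rw [Bool.not_eq_true', ← Bool.not_eq_true, geB_iff, not_le, val_mulB, val_mulB,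
    div_lt_div_iff₀ h1 h2]
  exact_mod_cast Iff.rfl

theorem proper_fsub {p q : Frac} (hp : p.Proper) (hq : q.Proper) : (fsub p q).Proper := by
  unfold Frac.Proper fsub at *
  rw [val_mulB]
  positivity

theorem toReal_fsub {p q : Frac} (hp : p.Proper) (hq : q.Proper) (h : q.toReal ≤ p.toReal) :
    (fsub p q).toReal = p.toReal - q.toReal := by
  unfold Frac.Proper Frac.toReal fsub at *
  have h1 : (0 : ℝ) < val p.2 := by positivity
  have h2 : (0 : ℝ) < val q.2 := by positivity
  rw [div_le_div_iff₀ h2 h1] at h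
  have h3 : val q.1 * val p.2 ≤ val p.1 * val q.2 := by exact_mod_cast h
  rw [val_subB _ _ (by rw [val_mulB, val_mulB]; exact h3), val_mulB, val_mulB, val_mulB,
    Nat.cast_sub h3]
  push_cast
  field_simp

theorem proper_fhalf {p : Frac} (hp : p.Proper) : (fhalf p).Proper := by
  unfold Frac.Proper fhalf at *
  simp only [val_cons, cond_false, zero_add]
  positivity

theorem toReal_fhalf {p : Frac} (hp : p.Proper) : (fhalf p).toReal = p.toReal / 2 := by
  unfold Frac.Proper Frac.toReal fhalf at *
  have h1 : (val p.2 : ℝ) ≠ 0 := by positivity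
  simp only [val_cons, cond_false, zero_add]
  push_cast
  field_simp

theorem proper_fmax {p q : Frac} (hp : p.Proper) (hq : q.Proper) : (fmax p q).Proper := by
  unfold fmax
  cases flt p q
  · exact hp
  · exact hq

theorem toReal_fmax {p q : Frac} (hp : p.Proper) (hq : q.Proper) :
    (fmax p q).toReal = max p.toReal q.toReal := by
  unfold fmax
  cases h : flt p q with
  | false =>
    have : ¬ p.toReal < q.toReal := by rw [← flt_iff hp hq, h]; simp
    simp only [cond_false]
    rw [max_eq_left (not_lt.1 this)]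
  | true =>
    have := (flt_iff hp hq).1 h
    simp only [cond_true]
    rw [max_eq_right this.le]

theorem proper_fmin {p q : Frac} (hp : p.Proper) (hq : q.Proper) : (fmin p q).Proper := by
  unfold fmin
  cases flt p q
  · exact hq
  · exact hp

theorem toReal_fmin {p q : Frac} (hp : p.Proper) (hq : q.Proper) :
    (fmin p q).toReal = min p.toReal q.toReal := by
  unfold fmin
  cases h : flt p q with
  | false =>
    have : ¬ p.toReal < q.toReal := by rw [← flt_iff hp hq, h]; simp
    simp only [cond_false]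
    rw [min_eq_right (not_lt.1 this)]
  | true =>
    have := (flt_iff hp hq).1 h
    simp only [cond_true]
    rw [min_eq_left this.le]

theorem toReal_nonneg (p : Frac) : 0 ≤ p.toReal := by
  unfold Frac.toReal
  positivity

/-! ### Points -/

theorem pt_zero (I : Inst) : pt (pts I) 0 = (false, none) := by
  simp [pt, pts]

theorem pt_succ (I : Inst) (i : ℕ) (hi : i < I.starts.length) :
    pt (pts I) (i + 1) = (false, some I.starts[i]) := by
  simp [pt, pts, List.getElem?_append_left, hi]

theorem pt_last (I : Inst) (i : ℕ) (hi : I.starts.length < i) :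
    pt (pts I) i = (true, none) := by
  obtain ⟨k, rfl⟩ : ∃ k, i = k + 1 := ⟨i - 1, by omega⟩
  simp only [pt, pts, List.getElem?_cons_succ]
  rw [List.getElem?_append_right (by simp; omega), List.length_map]
  rcases Nat.eq_or_lt_of_le (show I.starts.length ≤ k by omega) with h | h
  · rw [h]; simp
  · rw [List.getElem?_eq_none (by simp; omega)]; simp

theorem length_pts (I : Inst) : (pts I).length = I.starts.length + 2 := by
  simp [pts]

/-- Trichotomy for points. -/
theorem pt_cases (I : Inst) (v : ℕ) :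
    (v = 0 ∧ pt (pts I) v = (false, none)) ∨
    (∃ i, ∃ h : i < I.starts.length, v = i + 1 ∧ pt (pts I) v = (false, some I.starts[i])) ∨
    (I.starts.length < v ∧ pt (pts I) v = (true, none)) := by
  rcases Nat.eq_zero_or_pos v with h | h
  · subst h; exact Or.inl ⟨rfl, pt_zero I⟩
  · rcases Nat.lt_or_ge (v - 1) I.starts.length with h' | h'
    · refine Or.inr (Or.inl ⟨v - 1, h', by omega, ?_⟩)
      have := pt_succ I (v - 1) h'
      rwa [show v - 1 + 1 = v by omega] at this
    · exact Or.inr (Or.inr ⟨by omega, pt_last I v (by omega)⟩)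

section

variable {I : Inst} (hI : Valid I)

include hI

theorem starts_mono {i i' : ℕ} (hi' : i' < I.starts.length) (h : i ≤ i') :
    (I.starts[i]'(by omega)).toReal ≤ (I.starts[i']).toReal := by
  rcases Nat.eq_or_lt_of_le h with rfl | hlt
  · exact le_rfl
  · exact (List.pairwise_iff_getElem.1 hI.starts_increasing i i' (by omega) hi' hlt).le

theorem pt_le_left {v i : ℕ} (h : v ≤ i) {t' : Frac} (ht : (pt (pts I) i).2 = some t') :
    (∃ t, (pt (pts I) v).2 = some t ∧ t.Proper ∧ t.toReal ≤ t'.toReal) ∨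
      pt (pts I) v = (false, none) := by
  rcases pt_cases I i with ⟨_, h1⟩ | ⟨k, hk, rfl, h1⟩ | ⟨_, h1⟩
  · rw [h1] at ht; cases ht
  · rw [h1] at ht
    simp only [Option.some.injEq] at ht
    subst ht
    rcases pt_cases I v with ⟨_, h2⟩ | ⟨k', hk', rfl, h2⟩ | ⟨h3, h2⟩
    · exact Or.inr h2
    · left
      exact ⟨I.starts[k'], by rw [h2], hI.starts_proper _ (List.getElem_mem _),
        starts_mono hI hk (by omega)⟩
    · omega
  · rw [h1] at ht; cases ht

theorem pt_le_right {v i : ℕ} (h : i ≤ v) {t' : Frac} (ht : (pt (pts I) i).2 = some t') :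
    (∃ t, (pt (pts I) v).2 = some t ∧ t.Proper ∧ t'.toReal ≤ t.toReal) ∨
      pt (pts I) v = (true, none) := by
  rcases pt_cases I i with ⟨_, h1⟩ | ⟨k, hk, rfl, h1⟩ | ⟨_, h1⟩
  · rw [h1] at ht; cases ht
  · rw [h1] at ht
    simp only [Option.some.injEq] at ht
    subst ht
    rcases pt_cases I v with ⟨h3, h2⟩ | ⟨k', hk', rfl, h2⟩ | ⟨_, h2⟩
    · omega
    · left
      exact ⟨I.starts[k'], by rw [h2], hI.starts_proper _ (List.getElem_mem _),
        starts_mono hI hk' (by omega)⟩
    · exact Or.inr h2
  · rw [h1] at ht; cases ht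

theorem pt_proper {v : ℕ} {t : Frac} (ht : (pt (pts I) v).2 = some t) : t.Proper := by
  rcases pt_cases I v with ⟨_, h1⟩ | ⟨k, hk, rfl, h1⟩ | ⟨_, h1⟩
  · rw [h1] at ht; cases ht
  · rw [h1] at ht
    simp only [Option.some.injEq] at ht
    subst ht
    exact hI.starts_proper _ (List.getElem_mem _)
  · rw [h1] at ht; cases ht

/-! ### Jobs -/

theorem proper_shiftLo {j : Job} (hj : j ∈ I.jobs) : (shiftLo I j).Proper :=
  proper_fdiv (proper_fmul hI.delta_proper (hI.jobs_proper j hj).2.2.2.1) hI.len_pos

theorem proper_shiftHi {j : Job} (hj : j ∈ I.jobs) : (shiftHi I j).Proper :=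
  proper_fdiv (proper_fmul hI.delta_proper (hI.jobs_proper j hj).2.2.2.2) hI.len_pos

theorem toReal_shiftLo {j : Job} (hj : j ∈ I.jobs) :
    (shiftLo I j).toReal = I.delta.toReal * j.ls.toReal / I.len.toReal := by
  unfold shiftLo
  rw [toReal_fdiv (proper_fmul hI.delta_proper (hI.jobs_proper j hj).2.2.2.1) hI.len_proper
    hI.len_pos, toReal_fmul hI.delta_proper (hI.jobs_proper j hj).2.2.2.1]

theorem toReal_shiftHi {j : Job} (hj : j ∈ I.jobs) :
    (shiftHi I j).toReal = I.delta.toReal * j.le.toReal / I.len.toReal := by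
  unfold shiftHi
  rw [toReal_fdiv (proper_fmul hI.delta_proper (hI.jobs_proper j hj).2.2.2.2) hI.len_proper
    hI.len_pos, toReal_fmul hI.delta_proper (hI.jobs_proper j hj).2.2.2.2]

theorem shiftLo_le_shiftHi {j : Job} (hj : j ∈ I.jobs) :
    (shiftLo I j).toReal ≤ (shiftHi I j).toReal := by
  rw [toReal_shiftLo hI hj, toReal_shiftHi hI hj]
  have h1 := hI.delta_pos
  have h2 := hI.len_pos
  have h3 := (hI.location j hj).1
  gcongr

/-- A path meets the box of a job iff the projections overlap. -/
theorem meets_iff {j : Job} (hj : j ∈ I.jobs) (t x : ℝ) :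
    Meets I t j x ↔ x ≤ t + (shiftHi I j).toReal ∧
      t + (shiftLo I j).toReal ≤ x + j.p.toReal := by
  have hδ := hI.delta_pos
  have hL := hI.len_pos
  have hls := toReal_nonneg j.ls
  have hle := hI.location j hj
  have hp := toReal_nonneg j.p
  have hlo := toReal_shiftLo hI hj
  have hhi := toReal_shiftHi hI hj
  have hlohi := shiftLo_le_shiftHi hI hj
  constructor
  · rintro ⟨θ, h0, h1, ⟨h2, h3⟩, ⟨h4, h5⟩⟩
    have h6 : θ ≤ j.le.toReal / I.len.toReal := by rw [le_div_iff₀ hL]; exact h5
    have h7 : j.ls.toReal / I.len.toReal ≤ θ := by rw [div_le_iff₀ hL]; exact h4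
    rw [hlo, hhi, mul_div_assoc, mul_div_assoc]
    constructor
    · have := mul_le_mul_of_nonneg_left h6 hδ.le
      nlinarith
    · have := mul_le_mul_of_nonneg_left h7 hδ.le
      nlinarith
  · rintro ⟨h1, h2⟩
    set v := max x (t + (shiftLo I j).toReal) with hv
    have hv1 : x ≤ v := le_max_left _ _
    have hv2 : t + (shiftLo I j).toReal ≤ v := le_max_right _ _
    have hv3 : v ≤ x + j.p.toReal := max_le (by linarith) h2
    have hv4 : v ≤ t + (shiftHi I j).toReal := max_le h1 (by linarith)
    have hθ : (v - t) / I.delta.toReal * I.delta.toReal = v - t := by field_simp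
    have e1 : j.ls.toReal ≤ (v - t) / I.delta.toReal * I.len.toReal := by
      rw [div_mul_eq_mul_div, le_div_iff₀ hδ]
      have : (shiftLo I j).toReal ≤ v - t := by linarith
      rw [hlo, div_le_iff₀ hL] at this
      linarith
    have e2 : (v - t) / I.delta.toReal * I.len.toReal ≤ j.le.toReal := by
      rw [div_mul_eq_mul_div, div_le_iff₀ hδ]
      have : v - t ≤ (shiftHi I j).toReal := by linarith
      rw [hhi, le_div_iff₀ hL] at this
      linarith
    refine ⟨(v - t) / I.delta.toReal, ?_, ?_, ⟨?_, ?_⟩, ⟨e1, e2⟩⟩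
    · by_contra hneg
      have := mul_neg_of_neg_of_pos (not_le.1 hneg) hL
      linarith
    · have h3 : (v - t) / I.delta.toReal * I.len.toReal ≤ 1 * I.len.toReal := by
        linarith [hle.2]
      exact le_of_mul_le_mul_right h3 hL
    · rw [hθ]; linarith
    · rw [hθ]; linarith

end

end Pool.Agent.Lib.MP2ca8f5
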