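import Mathlib

set_option autoImplicit false

/-!
# Programs over binary trees and polynomial time

The model of computation is N. D. Jones' WHILE language over binary trees, in a variable free
form, with a step count that charges every elementary operation with the size of the data it
handles.
-/

namespace Pool.Agent.Lib.MP2ca8f5

/-- Binary trees, the only data type of the programming language. -/
inductive D : Type
  | nil : D
  | cons : D → D → D

namespace D

/-- The number of nodes of a tree. -/
def size : D → ℕ
  | nil => 1
  | cons a b => a.size + b.size + 1

/-- Left subtree (`nil` if there is none). -/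
def hd : D → D
  | nil => nil
  | cons a _ => a

/-- Right subtree (`nil` if there is none). -/
def tl : D → D
  | nil => nil
  | cons _ b => b

end D

/-- Programs. Each denotes a partial map from trees to trees. -/
inductive Prog : Type
  | nil : Prog
  | id : Prog
  | hd : Prog
  | tl : Prog
  | cons : Prog → Prog → Prog
  | comp : Prog → Prog → Prog
  | ite : Prog → Prog → Prog → Prog
  | loop : Prog → Prog → Prog

/-- `Run p x y t`: on input `x` the program `p` halts with output `y` in time `t`.
* `nil` outputs `nil`, `id` copies its input, `hd` and `tl` output a subtree, `cons p q` runs `p`
  and `q` on the input and joins the outputs, `comp p q` runs `q` and then `p` on its output,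
  `ite c p q` runs the test `c` and then `p` if the test gave a tree other than `nil`, else `q`;
  `loop c p` is: while `c` gives a tree other than `nil` on the current value, apply `p` to the
  current value.
* Time: every elementary operation, and every copy made of the current value, costs the size of
  the tree it handles. -/
inductive Run : Prog → D → D → ℕ → Prop
  | nil (x : D) : Run .nil x .nil x.size
  | id (x : D) : Run .id x x x.size
  | hd (x : D) : Run .hd x x.hd x.size
  | tl (x : D) : Run .tl x x.tl x.size
  | cons {p q : Prog} {x y z : D} {s t : ℕ} :
      Run p x y s → Run q x z t → Run (.cons p q) x (.cons y z) (x.size + s + t + 1)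
  | comp {p q : Prog} {x y z : D} {s t : ℕ} :
      Run q x y s → Run p y z t → Run (.comp p q) x z (s + t + 1)
  | ite_true {c p q : Prog} {x y y' z : D} {s t : ℕ} :
      Run c x (.cons y y') s → Run p x z t → Run (.ite c p q) x z (x.size + s + t)
  | ite_false {c p q : Prog} {x z : D} {s t : ℕ} :
      Run c x .nil s → Run q x z t → Run (.ite c p q) x z (x.size + s + t)
  | loop_stop {c p : Prog} {x : D} {s : ℕ} :
      Run c x .nil s → Run (.loop c p) x x (x.size + s)
  | loop_step {c p : Prog} {x x' y y' z : D} {s t u : ℕ} :
      Run c x (.cons y y') s → Run p x x' t → Run (.loop c p) x' z u →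
      Run (.loop c p) x z (x.size + s + t + u)

/-- Types whose elements are represented by binary trees. -/
class Enc (α : Type) where
  enc : α → D

export Enc (enc)

instance : Enc Unit := ⟨fun _ => D.nil⟩

instance : Enc Bool := ⟨fun b => bif b then D.cons D.nil D.nil else D.nil⟩

instance {α β : Type} [Enc α] [Enc β] : Enc (α × β) := ⟨fun p => D.cons (enc p.1) (enc p.2)⟩

/-- A list is represented by the comb of its elements. -/
def encList {α : Type} [Enc α] : List α → D
  | [] => D.nil
  | a :: l => D.cons (enc a) (encList l)

instance {α : Type} [Enc α] : Enc (List α) := ⟨encList⟩

/-- The length of the representation of an element. -/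
def esize {α : Type} [Enc α] (a : α) : ℕ := (enc a).size

/-- `f` is computable in polynomial time: one program computes `f` on the representations, in time
at most `c * n ^ k` for inputs of length `n`. -/
def PolyTime {α β : Type} [Enc α] [Enc β] (f : α → β) : Prop :=
  ∃ (p : Prog) (c k : ℕ), ∀ a : α, ∃ t : ℕ, Run p (enc a) (enc (f a)) t ∧ t ≤ c * esize a ^ k

end Pool.Agent.Lib.MP2ca8f5
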